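import Mathlib
import Pool.Agent.H204R3.GP.MTDefs

/-!
# The first cohomology group of an abelian variety over a number field: Hodge and Tate classes

`W = H_1(A, ℚ)` is the rational homology of a complex abelian variety `A`, `T` its tangent space at
the origin and `per : W → T` the inclusion; `V = k ⊗ W` (where `k = ℚ_ℓ`) is identified with the
rational Tate module by the comparison isomorphism, `ρ` is the action of the Galois group `Γ` of a
field of definition on it and `χ` is the cyclotomic character.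
-/

namespace Pool.Agent.W516.MTD

open Module TensorProduct Pool.Agent.H204R3.GP

/-- A basis of `W` over the rational numbers is mapped to a basis of `T` over the real numbers. -/
def IsRationalStructure {W T : Type} [AddCommGroup W] [Module ℚ W] [AddCommGroup T] [Module ℂ T]
    (per : W →+ T) : Prop :=
  ∃ (b : Basis (Fin (finrank ℚ W)) ℚ W) (b' : Basis (Fin (finrank ℚ W)) ℝ T), ∀ i, b' i = per (b i)

/-- `ω₀` is a Riemann form (a polarization): an alternating form on `W` whose extension `E` to a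
real bilinear form on `T` satisfies `E(z u, z v) = E(u, v)` for the complex numbers `z` of absolute
value one and `E(i u, u) > 0` for `u ≠ 0`. -/
def IsRiemannForm {W T : Type} [AddCommGroup W] [Module ℚ W] [AddCommGroup T] [Module ℂ T]
    (per : W →+ T) (ω₀ : W →ₗ[ℚ] W →ₗ[ℚ] ℚ) : Prop :=
  ∃ E : T →ₗ[ℝ] T →ₗ[ℝ] ℝ, (∀ x y, E (per x) (per y) = ω₀ x y) ∧
    (∀ z : ℂ, ‖z‖ = 1 → ∀ u v, E (z • u) (z • v) = E u v) ∧ (∀ u, E u u = 0) ∧
    ∀ u, u ≠ 0 → 0 < E (Complex.I • u) u

variable {k : Type} [Field k] [CharZero k] {W T : Type} [AddCommGroup W] [Module ℚ W]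
  [AddCommGroup T] [Module ℂ T]

/-- The multilinear form `φ` on `V = k ⊗ W` is a linear combination with coefficients in `k` of
Hodge classes. -/
def IsHodgeCombination (per : W →+ T) {κ : Type}
    (φ : MultilinearMap k (fun _ : κ => k ⊗[ℚ] W) k) : Prop :=
  φ ∈ Submodule.span k {φ' : MultilinearMap k (fun _ : κ => k ⊗[ℚ] W) k |
    ∃ ψ : MultilinearMap ℚ (fun _ : κ => W) ℚ, IsHodgeTensor per ψ ∧
      ∀ v : κ → W, φ' (fun l => (1 : k) ⊗ₜ[ℚ] v l) = ((ψ v : ℚ) : k)}

/-- The endomorphism `X` annihilates the form `φ` (it acts as a derivation). -/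
def Annihilates {κ : Type} [Fintype κ] [DecidableEq κ] (X : Module.End k (k ⊗[ℚ] W))
    (φ : MultilinearMap k (fun _ : κ => k ⊗[ℚ] W) k) : Prop :=
  ∀ v, ∑ j, φ (Function.update v j (X (v j))) = 0

/-- The endomorphisms of `A` (with coefficients in `k`), acting on `V`. -/
def endos (k : Type) [Field k] [CharZero k] (per : W →+ T) : Submodule k (Module.End k (k ⊗[ℚ] W)) :=
  Submodule.span k {P | ∃ P₀ : W →ₗ[ℚ] W, IsHodgeEnd per P₀ ∧ P = P₀.baseChange k}

variable {Γ : Type} [Group Γ]

/-- The theorem of Faltings on endomorphisms: every endomorphism of `V` which commutes with the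
action of a subgroup of finite index of the Galois group is a linear combination of endomorphisms
of `A`. -/
def Faltings (per : W →+ T) (ρ : Representation k Γ (k ⊗[ℚ] W)) : Prop :=
  ∀ P : Module.End k (k ⊗[ℚ] W),
    (∃ Δ : Subgroup Γ, Δ.FiniteIndex ∧ ∀ s ∈ Δ, ∀ v, P (ρ s v) = ρ s (P v)) → P ∈ endos k per

/-- The theorem of Faltings on semisimplicity. -/
def Semisimple (ρ : Representation k Γ (k ⊗[ℚ] W)) : Prop :=
  ∀ U : Submodule k (k ⊗[ℚ] W), (∀ s, ∀ u ∈ U, ρ s u ∈ U) →
    ∃ U' : Submodule k (k ⊗[ℚ] W), (∀ s, ∀ u ∈ U', ρ s u ∈ U') ∧ IsCompl U U'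

/-- The theorem of Deligne: Hodge classes are Tate classes. -/
def Deligne (per : W →+ T) (ρ : Representation k Γ (k ⊗[ℚ] W)) (χ : Γ →* k) : Prop :=
  ∀ (m : ℕ) (ψ : MultilinearMap ℚ (fun _ : Fin m × Fin 2 => W) ℚ), IsHodgeTensor per ψ →
    ∀ φ : MultilinearMap k (fun _ : Fin m × Fin 2 => k ⊗[ℚ] W) k,
      (∀ v : Fin m × Fin 2 → W, φ (fun l => (1 : k) ⊗ₜ[ℚ] v l) = ((ψ v : ℚ) : k)) →
      IsTateTensor ρ χ m φ

/-- The theorem on centres (the Mumford-Tate conjecture holds for centres; Vasiu, Ullmo-Yafaev) in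
terms of Lie algebras: an element of the centre of the algebra `End(A) ⊗ k` which annihilates all
Hodge classes annihilates all Tate classes. -/
def Centres (per : W →+ T) (ρ : Representation k Γ (k ⊗[ℚ] W)) (χ : Γ →* k) : Prop :=
  ∀ C ∈ endos k per, (∀ P ∈ endos k per, C * P = P * C) →
    (∀ (m : ℕ) (φ : MultilinearMap k (fun _ : Fin m × Fin 2 => k ⊗[ℚ] W) k),
      IsHodgeCombination per φ → Annihilates C φ) →
    ∀ (m : ℕ) (φ : MultilinearMap k (fun _ : Fin m × Fin 2 => k ⊗[ℚ] W) k),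
      IsTateTensor ρ χ m φ → Annihilates C φ

end Pool.Agent.W516.MTD
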