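import Mathlib
import Pool.Agent.W516.Four2

/-!
# An element without multiplicative relations of length four: the structure of the commutant
-/

set_option linter.unusedSectionVars false

namespace Pool.Agent.W516.FT

open Module Pool.Agent.H204R3.CM Pool.Agent.H204R3.SP Pool.Agent.H204R3.GP

noncomputable section

variable {Ω : Type*} [Field Ω] [CharZero Ω] {V : Type*} [AddCommGroup V] [Module Ω V]
  {R : Type*} [Fintype R] [DecidableEq R] (e : Basis R Ω V) {inv : R → R} {jj : R → Ω}
  (hinv : ∀ x, inv (inv x) = x) (hne : ∀ x, inv x ≠ x)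
  (hjj : ∀ x, jj (inv x) = -jj x) (hj0 : ∀ x, jj x ≠ 0)
  (ω : V →ₗ[Ω] V →ₗ[Ω] Ω) (hω : ∀ x y, ω (e x) (e y) = JJ inv jj x y)
  {Γ : Type*} [Group Γ] (ρ : Representation Ω Γ V) (χ : Γ →* Ω)
  (hωρ : ∀ s u v, ω (ρ s u) (ρ s v) = χ s * ω u v) (hss : HasProj ρ)
  {γ : Γ} {a : R → Ω} (hγ : ∀ x, ρ γ (e x) = a x • e x)
  {q : Ω} (hq0 : q ≠ 0) (hq : ∀ x, a x * a (inv x) = q) (hχ : χ γ = q) (h4 : Four inv a q)

theorem dg_repr (c : R → Ω) (v : V) (z : R) : e.repr (dg e c v) z = c z * e.repr v z := by
  conv_lhs => rw [← e.sum_repr v]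
  rw [map_sum, map_sum, Finsupp.finsetSum_apply, Finset.sum_eq_single z]
  · rw [map_smul, dg_basis, map_smul, map_smul, e.repr_self, Finsupp.smul_apply,
      Finsupp.smul_apply, Finsupp.single_eq_same, smul_eq_mul, smul_eq_mul]
    ring
  · intro b _ hb
    rw [map_smul, dg_basis, map_smul, map_smul, e.repr_self, Finsupp.smul_apply,
      Finsupp.smul_apply, Finsupp.single_eq_of_ne hb.symm, smul_zero, smul_zero]
  · intro h
    exact absurd (Finset.mem_univ _) h

include hinv hne hjj hj0 hω hωρ hss hγ hq0 hq h4 in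
theorem nCC_iff {x y z : R} (hz : z ∈ CC e (nrm ω ρ χ) ω inv y) :
    z ∈ CC e (nrm ω ρ χ) ω inv x ↔ y ∈ CC e (nrm ω ρ χ) ω inv x := by
  constructor
  · intro h
    exact nCC_trans e hinv hne hjj hj0 ω hω ρ χ hωρ hγ hq0 hq h4 h
      (nCC_symm e hinv hne hjj hj0 ω hω ρ χ hωρ hss hγ hq0 hq h4 hz)
  · intro h
    exact nCC_trans e hinv hne hjj hj0 ω hω ρ χ hωρ hγ hq0 hq h4 h hz

include hinv hne hjj hj0 hω hωρ hss hγ hq0 hq hχ h4 in
/-- A skew endomorphism that commutes with the almost equivariant endomorphisms is the sum of an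
element of the Lie algebra and of a diagonal endomorphism which is constant on the classes. -/
theorem decompose (Z : Module.End Ω V) (hZ : ∀ u w, ω (Z u) w + ω u (Z w) = 0)
    (hZc : ∀ P, AlmostEquivariant ρ P → ∀ v, Z (P v) = P (Z v)) :
    ∃ c : R → Ω, (∀ y, ∀ z ∈ CC e (nrm ω ρ χ) ω inv y, c z = c y) ∧
      Z - dg e c ∈ lieT ρ χ := by
  classical
  let ζ : R → R → Ω := fun z x => e.repr (Z (e x)) z
  have hζ : ∀ z x, ζ z x = e.repr (Z (e x)) z := fun _ _ => rfl
  have hiff : ∀ x y z, z ∈ CC e (nrm ω ρ χ) ω inv y →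
      (z ∈ CC e (nrm ω ρ χ) ω inv x ↔ y ∈ CC e (nrm ω ρ χ) ω inv x) := fun x y z hz =>
    nCC_iff e hinv hne hjj hj0 ω hω ρ χ hωρ hss hγ hq0 hq h4 hz
  -- the support
  have h1 : ∀ x z, z ∉ CC e (nrm ω ρ χ) ω inv x → ζ z x = 0 := by
    intro x z hz
    let c : R → Ω := fun z => if z ∈ CC e (nrm ω ρ χ) ω inv x then 1 else 0
    have hc : ∀ y, ∀ z ∈ CC e (nrm ω ρ χ) ω inv y, c z = c y := by
      intro y z hz
      simp only [c, hiff x y z hz]
    have h2 := hZc _ (dg_almost e hinv hne hjj hj0 ω hω ρ χ hωρ hγ hq0 hq h4 c hc) (e x)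
    have h3 : c x = 1 := if_pos (mem_CC_self e (nrm ω ρ χ) ω x)
    have h4 : c z = 0 := if_neg hz
    rw [dg_basis, h3, one_smul] at h2
    have h5 := congrArg (fun v => e.repr v z) h2
    simp only [dg_repr, h4, zero_mul] at h5
    exact h5
  -- the symmetry
  have h2 : ∀ x y, ζ (inv y) x * jj y = ζ (inv x) y * jj x := by
    intro x y
    have h3 := hZ (e x) (e y)
    have h4 : ω (Z (e x)) (e y) = ζ (inv y) x * (-jj y) := by
      conv_lhs => rw [← e.sum_repr (Z (e x))]
      rw [map_sum, LinearMap.sum_apply, Finset.sum_eq_single (inv y)]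
      · rw [map_smul, LinearMap.smul_apply, hω, smul_eq_mul]
        unfold JJ
        rw [if_pos (hinv y).symm, hjj]
      · intro b _ hb
        rw [map_smul, LinearMap.smul_apply, hω]
        unfold JJ
        rw [if_neg (fun h => hb (by rw [h, hinv])), smul_zero]
      · intro h
        exact absurd (Finset.mem_univ _) h
    have h5 : ω (e x) (Z (e y)) = ζ (inv x) y * jj x := by
      conv_lhs => rw [← e.sum_repr (Z (e y))]
      rw [map_sum, Finset.sum_eq_single (inv x)]
      · rw [map_smul, hω, smul_eq_mul]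
        unfold JJ
        rw [if_pos rfl]
      · intro b _ hb
        rw [map_smul, hω]
        unfold JJ
        rw [if_neg hb, smul_zero]
      · intro h
        exact absurd (Finset.mem_univ _) h
    rw [h4, h5] at h3
    linear_combination -h3
  -- the expression by root vectors
  let α : R → R → Ω := fun z x => ζ z x / (-2 * jj x)
  have hα : ∀ z x, α z x = ζ z x / (-2 * jj x) := fun _ _ => rfl
  have h3 : Z = ∑ x, ∑ z, α z x • SS ω (e z) (e (inv x)) := by
    refine e.ext fun t => e.repr.injective (Finsupp.ext fun w => ?_)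
    have h4 : e.repr ((∑ x, ∑ z, α z x • SS ω (e z) (e (inv x))) (e t)) w =
        ∑ x, ∑ z, α z x * (JJ inv jj z t * (if inv x = w then 1 else 0) +
          JJ inv jj (inv x) t * (if z = w then 1 else 0)) := by
      rw [LinearMap.sum_apply, map_sum, Finsupp.finsetSum_apply]
      refine Finset.sum_congr rfl fun x _ => ?_
      rw [LinearMap.sum_apply, map_sum, Finsupp.finsetSum_apply]
      refine Finset.sum_congr rfl fun z _ => ?_
      rw [LinearMap.smul_apply, map_smul, Finsupp.smul_apply, SS_repr e ω hω, smul_eq_mul]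
    rw [h4]
    simp only [mul_add, Finset.sum_add_distrib]
    have h5 : ∑ x, ∑ z, α z x * (JJ inv jj z t * (if inv x = w then 1 else 0)) =
        α (inv t) (inv w) * (-jj t) := by
      rw [Finset.sum_eq_single (inv w)]
      · rw [Finset.sum_eq_single (inv t)]
        · unfold JJ
          rw [if_pos (hinv t).symm, if_pos (hinv w), hjj, mul_one]
        · intro z _ hz
          unfold JJ
          rw [if_neg (fun h => hz (by rw [h, hinv])), zero_mul, mul_zero]
        · intro h
          exact absurd (Finset.mem_univ _) h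
      · intro x _ hx
        refine Finset.sum_eq_zero fun z _ => ?_
        rw [if_neg (fun h => hx (by rw [← h, hinv])), mul_zero, mul_zero]
      · intro h
        exact absurd (Finset.mem_univ _) h
    have h6 : ∑ x, ∑ z, α z x * (JJ inv jj (inv x) t * (if z = w then 1 else 0)) =
        α w t * (-jj t) := by
      rw [Finset.sum_eq_single t]
      · rw [Finset.sum_eq_single w]
        · unfold JJ
          rw [if_pos (hinv t).symm, if_pos rfl, hjj, mul_one]
        · intro z _ hz
          rw [if_neg hz, mul_zero, mul_zero]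
        · intro h
          exact absurd (Finset.mem_univ _) h
      · intro x _ hx
        refine Finset.sum_eq_zero fun z _ => ?_
        unfold JJ
        rw [if_neg (fun h => hx (by rw [h, hinv])), zero_mul, mul_zero]
      · intro h
        exact absurd (Finset.mem_univ _) h
    rw [h5, h6, hα, hα]
    have h7 := h2 (inv w) t
    rw [hinv, hjj] at h7
    have e1 := hj0 t
    have e2 := hj0 w
    rw [hjj, ← hζ]
    have h8 : ζ (inv t) (inv w) = -(ζ w t * jj w) / jj t := by
      rw [eq_div_iff e1, h7]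
      ring
    rw [h8]
    field_simp
    ring
  have hSS : ∀ x, SS ω (e x) (e (inv x)) = (-jj x) • DD e inv x := fun x =>
    SS_DD e hinv hne hjj ω hω x
  -- the mean values
  let C : R → Finset R := fun x => Finset.univ.filter (fun z => z ∈ CC e (nrm ω ρ χ) ω inv x)
  have hC : ∀ x z, z ∈ C x ↔ z ∈ CC e (nrm ω ρ χ) ω inv x := by
    intro x z
    simp [C]
  have hC0 : ∀ x, ((C x).card : Ω) ≠ 0 := by
    intro x
    have h4 : x ∈ C x := (hC x x).2 (mem_CC_self e (nrm ω ρ χ) ω x)
    exact_mod_cast (Finset.card_pos.2 ⟨x, h4⟩).ne'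
  let c : R → Ω := fun z => ∑ x, (ζ x x / 2) * (((C x).card : Ω)⁻¹ * ∑ b ∈ C x, dd inv b z)
  refine ⟨c, ?_, ?_⟩
  · intro y z hz
    refine Finset.sum_congr rfl fun x _ => ?_
    congr 2
    have h5 : ∀ z, ∑ b ∈ C x, (dd inv b z : Ω) =
        (if z ∈ CC e (nrm ω ρ χ) ω inv x then 1 else 0) -
          (if inv z ∈ CC e (nrm ω ρ χ) ω inv x then 1 else 0) := by
      intro z
      unfold dd
      rw [Finset.sum_sub_distrib]
      congr 1
      · rw [Finset.sum_ite_eq]
        simp only [hC]
      · have h6 : ∀ b, (if z = inv b then (1 : Ω) else 0) = if inv z = b then 1 else 0 := by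
          intro b
          by_cases h : z = inv b
          · rw [if_pos h, if_pos (by rw [h, hinv])]
          · rw [if_neg h, if_neg (fun h' => h (by rw [← h', hinv]))]
        simp only [h6]
        rw [Finset.sum_ite_eq]
        simp only [hC]
    have h6 : inv z ∈ CC e (nrm ω ρ χ) ω inv x ↔ inv y ∈ CC e (nrm ω ρ χ) ω inv x :=
      (hiff x (inv z) (inv y) (CC_inv e (nrm ω ρ χ) ω hinv hz)).symm
    rw [h5, h5]
    simp only [hiff x y z hz, h6]
  · have h5 : dg e c = ∑ x, (ζ x x / 2) • (((C x).card : Ω)⁻¹ • ∑ b ∈ C x, DD e inv b) := by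
      refine e.ext fun t => ?_
      rw [dg_basis, LinearMap.sum_apply, Finset.sum_smul]
      refine Finset.sum_congr rfl fun x _ => ?_
      rw [LinearMap.smul_apply, LinearMap.smul_apply, LinearMap.sum_apply]
      simp only [DD_basis]
      rw [← Finset.sum_smul, smul_smul, smul_smul, mul_assoc]
    have h6 : Z - dg e c = ∑ x, ((∑ z ∈ Finset.univ.erase x, α z x • SS ω (e z) (e (inv x))) +
        (ζ x x / 2) • (((C x).card : Ω)⁻¹ • ∑ b ∈ C x, (DD e inv x - DD e inv b))) := by
      rw [h5]
      conv_lhs => rw [h3]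
      rw [← Finset.sum_sub_distrib]
      refine Finset.sum_congr rfl fun x _ => ?_
      rw [← Finset.sum_erase_add _ _ (Finset.mem_univ x), Finset.sum_sub_distrib,
        Finset.sum_const, hSS, smul_smul, hα]
      have e1 : ζ x x / (-2 * jj x) * -jj x = ζ x x / 2 := by
        have e2 := hj0 x
        field_simp
      rw [e1, smul_sub, ← Nat.cast_smul_eq_nsmul Ω, inv_smul_smul₀ (hC0 x), smul_sub]
      abel
    rw [h6]
    refine Submodule.sum_mem _ fun x _ => Submodule.add_mem _ ?_ ?_
    · refine Submodule.sum_mem _ fun z hz => ?_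
      have hzx : z ≠ x := Finset.ne_of_mem_erase hz
      by_cases hcc : z ∈ CC e (nrm ω ρ χ) ω inv x
      · refine Submodule.smul_mem _ _ ?_
        have h7 := hcc.resolve_left hzx
        rw [SS_comm] at h7
        refine SS_lieT e hinv hne hjj hj0 ω hω ρ χ hγ hq0 hq hχ h4 ?_ h7
        intro h
        apply hzx
        rw [← hinv z, ← h, hinv]
      · rw [hα, h1 x z hcc, zero_div, zero_smul]
        exact Submodule.zero_mem _
    · refine Submodule.smul_mem _ _ (Submodule.smul_mem _ _ (Submodule.sum_mem _ fun b hb => ?_))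
      exact DD_sub_mem e hinv hne hjj hj0 ω hω ρ χ hωρ hss hγ hq0 hq hχ h4 ((hC x b).1 hb)

end

end Pool.Agent.W516.FT
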