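import Mathlib
import Pool.Agent.W516.MT.Defs
import Pool.Agent.W516.MT.Casimir2
import Pool.Agent.W516.DRRank

/-!
# One quartic Tate class
-/

set_option linter.unusedSectionVars false

namespace Pool.Agent.W516.MTM

open Module TensorProduct Pool.Agent.H204R3.SP Pool.Agent.H204R3.GP Pool.Agent.W516.KC
  Pool.Agent.W516.MTD Pool.Agent.W516.DR

noncomputable section

variable {k : Type} [Field k] [CharZero k] {W T : Type} [AddCommGroup W] [Module ℚ W]
  [FiniteDimensional ℚ W] [AddCommGroup T] [Module ℂ T] (per : W →+ T)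
  {Γ : Type} [Group Γ] (ρ : Representation k Γ (k ⊗[ℚ] W)) (χ : Γ →* k)
  (ω₀ : W →ₗ[ℚ] W →ₗ[ℚ] ℚ) (ω : k ⊗[ℚ] W →ₗ[k] k ⊗[ℚ] W →ₗ[k] k)

theorem hc_iff {κ : Type} (φ : MultilinearMap k (fun _ : κ => k ⊗[ℚ] W) k) :
    MTD.IsHodgeCombination per φ ↔ φ ∈ Submodule.span k
      {φ' : MultilinearMap k (fun _ : κ => k ⊗[ℚ] W) k |
        ∃ ψ : MultilinearMap ℚ (fun _ : κ => W) ℚ, IsHodgeTensor per ψ ∧
          ∀ v : κ → W, φ' (fun l => (1 : k) ⊗ₜ[ℚ] v l) = algebraMap ℚ k (ψ v)} := by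
  unfold MTD.IsHodgeCombination
  simp only [eq_ratCast]

theorem riemann_hodge (h : IsRiemannForm per ω₀) : IsHodgeBilinear per ω₀ := by
  obtain ⟨E, h1, h2, -, -⟩ := h
  exact ⟨E, h1, h2⟩

/-- The kernel of a Riemann form is zero. -/
theorem riemann_nondeg (hper : MTD.IsRationalStructure per) (h : IsRiemannForm per ω₀) :
    ∀ u, (∀ v, ω₀ u v = 0) → u = 0 := by
  obtain ⟨E, h1, -, -, h4⟩ := h
  obtain ⟨b, b', hb⟩ := hper
  intro u hu
  have h5 : ∀ t : T, E (per u) t = 0 := by
    intro t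
    rw [← b'.sum_repr t, map_sum]
    refine Finset.sum_eq_zero fun i _ => ?_
    rw [map_smul, hb, h1, hu, Rat.cast_zero, smul_zero]
  have h6 : per u = 0 := by
    by_contra hne
    have h7 := h4 (per u) hne
    have h8 : 0 < E (Complex.I • Complex.I • per u) (Complex.I • per u) := by
      apply h4
      intro h0
      apply hne
      have h9 := congrArg (fun x => Complex.I • x) h0
      simp only [smul_smul, Complex.I_mul_I, smul_zero, neg_smul, one_smul, neg_eq_zero] at h9
      exact h9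
    rw [smul_smul, Complex.I_mul_I, neg_one_smul, map_neg, LinearMap.neg_apply, h5, neg_zero] at h8
    exact lt_irrefl _ h8
  -- `per` is injective
  have h7 : ∀ i, b.repr u i = 0 := by
    have h8 : per u = ∑ i, ((b.repr u i : ℚ) : ℝ) • b' i := by
      conv_lhs => rw [← b.sum_repr u, map_sum]
      refine Finset.sum_congr rfl fun i _ => ?_
      rw [hb]
      exact map_ratCast_smul per ℚ ℝ (b.repr u i) (b i)
    rw [h6] at h8
    intro i
    have h9 := (Fintype.linearIndependent_iff.1 b'.linearIndependent) _ h8.symm i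
    exact_mod_cast h9
  apply b.repr.injective
  ext i
  rw [h7, map_zero, Finsupp.zero_apply]

variable (hper : MTD.IsRationalStructure per) (hR : IsRiemannForm per ω₀)
  (hωω : ∀ u v : W, ω ((1 : k) ⊗ₜ[ℚ] u) ((1 : k) ⊗ₜ[ℚ] v) = algebraMap ℚ k (ω₀ u v))
  (hωρ : ∀ s u v, ω (ρ s u) (ρ s v) = χ s * ω u v)
  (hD : Deligne per ρ χ)

/-- Kills for combinations. -/
theorem kills_hc {κ : Type} [Fintype κ] [DecidableEq κ] (X : Module.End k (k ⊗[ℚ] W))
    (hX : ∀ (ψ : MultilinearMap ℚ (fun _ : κ => W) ℚ), IsHodgeTensor per ψ →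
      ∀ φ : MultilinearMap k (fun _ : κ => k ⊗[ℚ] W) k,
      (∀ v : κ → W, φ (fun l => (1 : k) ⊗ₜ[ℚ] v l) = algebraMap ℚ k (ψ v)) → Kills X φ)
    (φ : MultilinearMap k (fun _ : κ => k ⊗[ℚ] W) k) (hφ : MTD.IsHodgeCombination per φ) :
    Kills X φ := by
  rw [hc_iff] at hφ
  induction hφ using Submodule.span_induction with
  | mem φ h =>
    obtain ⟨ψ, h1, h2⟩ := h
    exact hX ψ h1 φ h2
  | zero =>
    intro v
    exact Finset.sum_eq_zero fun _ _ => rfl
  | add a b _ _ ha hb =>
    intro v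
    have h3 := congrArg₂ (fun x y : k => x + y) (ha v) (hb v)
    simp only [add_zero] at h3
    rw [← h3, ← Finset.sum_add_distrib]
    rfl
  | smul c a _ ha =>
    intro v
    rw [← mul_zero c, ← ha v, Finset.mul_sum]
    rfl

include hD in
/-- The Lie algebra of the Tate classes kills the Hodge classes. -/
theorem lieT_hc {X : Module.End k (k ⊗[ℚ] W)} (hX : X ∈ lieT ρ χ) {m : ℕ}
    (φ : MultilinearMap k (fun _ : Fin m × Fin 2 => k ⊗[ℚ] W) k)
    (hφ : MTD.IsHodgeCombination per φ) : Kills X φ := by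
  refine kills_hc per X (fun ψ hψ φ hφ => ?_) φ hφ
  exact hX m φ (hD m ψ hψ φ (fun v => by rw [hφ v, eq_ratCast]))

/-- A rational form as a combination. -/
theorem hc_bcm {κ : Type} [Fintype κ] [DecidableEq κ] {ν : Type*} [Fintype ν] [DecidableEq ν]
    (b : Basis ν ℚ W)
    (ψ : MultilinearMap ℚ (fun _ : κ => W) ℚ) (h : IsHodgeTensor per ψ) :
    MTD.IsHodgeCombination per (bcm (Ω := k) b ψ) := by
  rw [hc_iff]
  exact Submodule.subset_span ⟨ψ, h, fun v => bcm_one b ψ v⟩

/-- The components of an endomorphism that kills the combinations of Hodge classes kill the Hodge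
classes. -/
theorem cmp_kills {κ : Type} [Fintype κ] [DecidableEq κ] {X : Module.End k (k ⊗[ℚ] W)}
    (hX : ∀ φ : MultilinearMap k (fun _ : κ => k ⊗[ℚ] W) k, MTD.IsHodgeCombination per φ →
      Kills X φ)
    (lam : k →ₗ[ℚ] ℚ) (ψ : MultilinearMap ℚ (fun _ : κ => W) ℚ) (h : IsHodgeTensor per ψ) :
    Kills (cmpE lam X) ψ :=
  (kills_bcm_iff (finBasis ℚ W) ψ X).1 (hX _ (hc_bcm per (finBasis ℚ W) ψ h)) lam

/-- The component of the trace. -/
theorem trace_cmp (X : Module.End k (k ⊗[ℚ] W)) (lam : k →ₗ[ℚ] ℚ) :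
    lam (LinearMap.trace k _ X) = LinearMap.trace ℚ W (cmpE lam X) := by
  classical
  let b := Module.finBasis ℚ W
  rw [LinearMap.trace_eq_matrix_trace k (b.baseChange k), LinearMap.trace_eq_matrix_trace ℚ b,
    Matrix.trace, Matrix.trace, map_sum]
  refine Finset.sum_congr rfl fun i _ => ?_
  rw [Matrix.diag_apply, Matrix.diag_apply, LinearMap.toMatrix_apply, LinearMap.toMatrix_apply,
    Basis.baseChange_apply, cmpE_apply]
  have h2 : ∀ z : k ⊗[ℚ] W, b.repr (cmp lam z) i = lam ((b.baseChange k).repr z i) := by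
    intro z
    induction z with
    | zero => simp only [map_zero, Finsupp.zero_apply]
    | add z z' h h' => simp only [map_add, Finsupp.add_apply, h, h']
    | tmul a w =>
      rw [cmp_tmul, map_smul, Finsupp.smul_apply, Basis.baseChange_repr_tmul]
      rw [map_smul, smul_eq_mul, smul_eq_mul, mul_comm]
  rw [h2]

/-- The component of a product with a rational endomorphism. -/
theorem cmpE_mul (X : Module.End k (k ⊗[ℚ] W)) (P : Module.End ℚ W) (lam : k →ₗ[ℚ] ℚ) :
    cmpE lam (X * P.baseChange k) = cmpE lam X * P := by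
  ext w
  rw [cmpE_apply, Module.End.mul_apply, Module.End.mul_apply, LinearMap.baseChange_tmul,
    cmpE_apply]

end

end Pool.Agent.W516.MTM
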