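import Mathlib

/-!
# Statements for the theorem on quartic Tate classes
-/

namespace Pool.Agent.W516.MTS

open Module Filter Topology

/-- Matrices congruent to one modulo `ℓ ^ 2`. -/
def Near (ℓ : ℕ) [Fact ℓ.Prime] {n : ℕ} (T : Matrix (Fin n) (Fin n) ℚ_[ℓ]) : Prop :=
  ∀ i j, ‖(T - 1) i j‖ ≤ (ℓ : ℝ) ^ (-2 : ℤ)

/-- Powers of matrices congruent to one. -/
def S_PADA : Prop :=
  ∀ (ℓ : ℕ) [Fact ℓ.Prime] (n : ℕ) (T : Matrix (Fin n) (Fin n) ℚ_[ℓ]), Near ℓ T →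
    ∀ (k : ℕ) (i j : Fin n), ‖(T ^ (ℓ ^ k) - 1) i j‖ ≤ (ℓ : ℝ) ^ (-2 - k : ℤ)

/-- The commutator with the `ℓ`-th power. -/
def S_PADB : Prop :=
  ∀ (ℓ : ℕ) [Fact ℓ.Prime] (n : ℕ) (T : Matrix (Fin n) (Fin n) ℚ_[ℓ]), Near ℓ T →
    ∀ (P : Matrix (Fin n) (Fin n) ℚ_[ℓ]) (r : ℝ),
      (∀ i j, ‖(T ^ ℓ * P - P * T ^ ℓ) i j‖ ≤ (ℓ : ℝ)⁻¹ * r) →
      ∀ i j, ‖(T * P - P * T) i j‖ ≤ r

/-- Compactness. -/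
def S_PADC : Prop :=
  ∀ (ℓ : ℕ) [Fact ℓ.Prime] (n : ℕ) (Y : ℕ → Matrix (Fin n) (Fin n) ℚ_[ℓ]) (y : ℕ → ℚ_[ℓ]),
    (∀ k i j, ‖Y k i j‖ ≤ 1) → (∀ k, ‖y k‖ ≤ 1) →
    ∃ (Y₀ : Matrix (Fin n) (Fin n) ℚ_[ℓ]) (y₀ : ℚ_[ℓ]) (f : ℕ → ℕ), StrictMono f ∧
      Tendsto (fun k => Y (f k)) atTop (𝓝 Y₀) ∧ Tendsto (fun k => y (f k)) atTop (𝓝 y₀)

/-- The first order term of an invariance property. -/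
def S_PADD : Prop :=
  ∀ (ℓ : ℕ) [Fact ℓ.Prime] (n : ℕ) (κ : Type) [Fintype κ] [DecidableEq κ]
    (φ : MultilinearMap ℚ_[ℓ] (fun _ : κ => Fin n → ℚ_[ℓ]) ℚ_[ℓ]) (N M : ℕ)
    (t : ℕ → ℚ_[ℓ]), (∀ k, t k ≠ 0) → Tendsto t atTop (𝓝 0) →
    ∀ (Y : ℕ → Matrix (Fin n) (Fin n) ℚ_[ℓ]) (y : ℕ → ℚ_[ℓ])
      (Y₀ : Matrix (Fin n) (Fin n) ℚ_[ℓ]) (y₀ : ℚ_[ℓ]),
    Tendsto Y atTop (𝓝 Y₀) → Tendsto y atTop (𝓝 y₀) →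
    (∀ (k : ℕ) (v : κ → Fin n → ℚ_[ℓ]),
      φ (fun l => ((1 + t k • Y k) ^ N).mulVec (v l)) = (1 + t k * y k) ^ M * φ v) →
    ∀ v : κ → Fin n → ℚ_[ℓ],
      (N : ℚ_[ℓ]) * ∑ j, φ (Function.update v j (Y₀.mulVec (v j))) = M * y₀ * φ v

/-- Continuous representations of compact groups. -/
def S_NBH : Prop :=
  ∀ (ℓ : ℕ) [Fact ℓ.Prime] (n : ℕ) (Γ : Type) [Group Γ] [TopologicalSpace Γ]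
    [IsTopologicalGroup Γ] [CompactSpace Γ] (M : Γ →* Matrix (Fin n) (Fin n) ℚ_[ℓ])
    (χ : Γ →* ℚ_[ℓ]), Continuous M → Continuous χ →
    ∃ Δ : Subgroup Γ, Δ.FiniteIndex ∧ ∀ s ∈ Δ, Near ℓ (M s) ∧ ‖χ s - 1‖ ≤ (ℓ : ℝ) ^ (-2 : ℤ)

/-- The Lie algebra acts semisimply. -/
def S_SEMI : Prop :=
  ∀ (k V Γ : Type) [Field k] [AddCommGroup V] [Module k V] [FiniteDimensional k V] [Group Γ]
    (ρ : Γ →* Module.End k V) (𝔥 : Submodule k (Module.End k V)),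
    (∀ (s : Γ), ∀ X ∈ 𝔥, ρ s * X * ρ s⁻¹ ∈ 𝔥) →
    (∀ U : Submodule k V, (∀ s, ∀ u ∈ U, ρ s u ∈ U) →
      ∃ U' : Submodule k V, (∀ s, ∀ u ∈ U', ρ s u ∈ U') ∧ IsCompl U U') →
    (∀ P : Module.End k V, (∀ s, P * ρ s = ρ s * P) → ∀ X ∈ 𝔥, X * P = P * X) →
    ∀ U : Submodule k V, (∀ X ∈ 𝔥, ∀ u ∈ U, X u ∈ U) →
      ∃ U' : Submodule k V, (∀ X ∈ 𝔥, ∀ u ∈ U', X u ∈ U') ∧ IsCompl U U'

/-- The trace form on the skew endomorphisms that commute with the complex structure is negative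
definite. -/
def S_ROS : Prop :=
  ∀ (W T : Type) [AddCommGroup W] [Module ℚ W] [FiniteDimensional ℚ W] [AddCommGroup T]
    [Module ℂ T] (per : W →+ T) (n : ℕ) (b : Basis (Fin n) ℚ W) (b' : Basis (Fin n) ℝ T),
    (∀ i, b' i = per (b i)) → ∀ (ω₀ : W →ₗ[ℚ] W →ₗ[ℚ] ℚ) (E : T →ₗ[ℝ] T →ₗ[ℝ] ℝ),
    (∀ x y, E (per x) (per y) = ω₀ x y) → (∀ u v, E (Complex.I • u) (Complex.I • v) = E u v) →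
    (∀ u, E u u = 0) → (∀ u, u ≠ 0 → 0 < E (Complex.I • u) u) →
    ∀ (P : W →ₗ[ℚ] W) (P' : T →ₗ[ℂ] T), (∀ w, P' (per w) = per (P w)) →
    (∀ u v, ω₀ (P u) v + ω₀ u (P v) = 0) → LinearMap.trace ℚ W (P ∘ₗ P) = 0 → P = 0

end Pool.Agent.W516.MTS
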