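import Mathlib
import Pool.Agent.W516.MT.Main
import Pool.Agent.W516.MT.Stmt

/-!
# One quartic Tate class: the algebraic part
-/

set_option linter.unusedSectionVars false

namespace Pool.Agent.W516.MTM

open Module TensorProduct Pool.Agent.H204R3.SP Pool.Agent.H204R3.GP Pool.Agent.W516.KC
  Pool.Agent.W516.MTD Pool.Agent.W516.DR

noncomputable section

variable {k : Type} [Field k] [CharZero k] {W T : Type} [AddCommGroup W] [Module ℚ W]
  [FiniteDimensional ℚ W] [AddCommGroup T] [Module ℂ T] (per : W →+ T)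
  {Γ : Type} [Group Γ] (ρ : Representation k Γ (k ⊗[ℚ] W)) (χ : Γ →* k)
  (ω₀ : W →ₗ[ℚ] W →ₗ[ℚ] ℚ) (ω : k ⊗[ℚ] W →ₗ[k] k ⊗[ℚ] W →ₗ[k] k)
  (hper : MTD.IsRationalStructure per) (hR : IsRiemannForm per ω₀)
  (hωω : ∀ u v : W, ω ((1 : k) ⊗ₜ[ℚ] u) ((1 : k) ⊗ₜ[ℚ] v) = algebraMap ℚ k (ω₀ u v))
  (hωρ : ∀ s u v, ω (ρ s u) (ρ s v) = χ s * ω u v)
  (hD : Deligne per ρ χ)

include hper hR hωω hωρ hD in
/-- The elements of the Lie algebra commute with the endomorphisms of the abelian variety. -/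
theorem lieT_comm {X : Module.End k (k ⊗[ℚ] W)} (hX : X ∈ lieT ρ χ)
    {P : Module.End k (k ⊗[ℚ] W)} (hP : P ∈ endos k per) : X * P = P * X := by
  have hnd := nondeg_ext ω₀ ω hωω (riemann_nondeg per ω₀ hper hR)
  unfold endos at hP
  induction hP using Submodule.span_induction with
  | mem P h =>
    obtain ⟨P₀, hP₀, rfl⟩ := h
    -- the form `ω₀ (P₀ u) v` is a Hodge class
    obtain ⟨E, hE, hinv⟩ := riemann_hodge per ω₀ hR
    obtain ⟨P', hP'⟩ := hP₀
    have h1 : IsHodgeTensor per (one2 (ω₀.comp P₀)) := by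
      apply one2_hodge
      refine ⟨E.comp (P'.restrictScalars ℝ), fun x y => ?_, fun z hz u v => ?_⟩
      · rw [LinearMap.comp_apply, LinearMap.comp_apply, LinearMap.restrictScalars_apply,
          hP', hE]
      · rw [LinearMap.comp_apply, LinearMap.comp_apply, LinearMap.restrictScalars_apply,
          LinearMap.restrictScalars_apply, P'.map_smul, hinv z hz]
    have h2 : Kills X (one2 (ω.comp (P₀.baseChange k))) := by
      refine hX 1 _ (hD 1 _ h1 _ fun v => ?_)
      rw [one2_apply, one2_apply, LinearMap.comp_apply, LinearMap.comp_apply,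
        LinearMap.baseChange_tmul, hωω, eq_ratCast]
    rw [kills_one2] at h2
    refine LinearMap.ext fun u => ?_
    rw [← sub_eq_zero]
    apply hnd
    intro v
    have h3 := h2 u v
    have h4 := lieT_sp ρ χ ω hωρ hX (P₀.baseChange k u) v
    rw [LinearMap.comp_apply, LinearMap.comp_apply] at h3
    rw [map_sub, LinearMap.sub_apply, Module.End.mul_apply, Module.End.mul_apply]
    linear_combination h4 - h3
  | zero => rw [mul_zero, zero_mul]
  | add a b _ _ ha hb => rw [mul_add, add_mul, ha, hb]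
  | smul c a _ ha => rw [mul_smul_comm, smul_mul_assoc, ha]

include hper hR in
/-- Commutation with the extensions. -/
theorem comm_endos (Z₀ : Module.End ℚ W) (hk : ∀ (m' : ℕ)
      (ψ : MultilinearMap ℚ (fun _ : Fin m' × Fin 2 => W) ℚ), IsHodgeTensor per ψ → Kills Z₀ ψ)
    {P : Module.End k (k ⊗[ℚ] W)} (h1 : P ∈ endos k per) :
    Z₀.baseChange k * P = P * Z₀.baseChange k := by
  have hnd₀ := riemann_nondeg per ω₀ hper hR
  have hRH := riemann_hodge per ω₀ hR
  unfold endos at h1
  induction h1 using Submodule.span_induction with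
  | mem P h =>
    obtain ⟨P₀, hP₀, rfl⟩ := h
    have h4 := congrArg (LinearMap.baseChange k) (comm_hodgeEnd per ω₀ hnd₀ hRH Z₀ hk hP₀)
    rw [LinearMap.baseChange_mul, LinearMap.baseChange_mul] at h4
    exact h4
  | zero => rw [mul_zero, zero_mul]
  | add a b _ _ ha hb => rw [mul_add, add_mul, ha, hb]
  | smul c a _ ha => rw [mul_smul_comm, smul_mul_assoc, ha]

variable (hC : Centres per ρ χ)
  (hcomm : ∀ P : Module.End k (k ⊗[ℚ] W), (∀ X ∈ lieT ρ χ, X * P = P * X) → P ∈ endos k per)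
  (hsemi : Semi (lieT ρ χ)) (hros : MTS.S_ROS)

include hper hR hωω hωρ hD hC hcomm hsemi hros in
/-- The trace form of the Lie algebra is nondegenerate. -/
theorem lieT_trace : KC2.TraceNondeg (lieT ρ χ) := by
  intro X hX htr
  have h1 := central_of_trace (lieT ρ χ) hsemi (fun X hX Y hY => lieT_bracket ρ χ hX hY) hX htr
  have h2 := hcomm X h1
  have h3 : ∀ P ∈ endos k per, X * P = P * X := fun P hP =>
    lieT_comm per ρ χ ω₀ ω hper hR hωω hωρ hD hX hP
  have hnd₀ := riemann_nondeg per ω₀ hper hR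
  have h0 : ∀ lam : k →ₗ[ℚ] ℚ, cmpE lam X = 0 := by
    intro lam
    -- the component is a central skew endomorphism of the Hodge structure
    have hk : ∀ (m : ℕ) (ψ : MultilinearMap ℚ (fun _ : Fin m × Fin 2 => W) ℚ),
        IsHodgeTensor per ψ → Kills (cmpE lam X) ψ := fun m ψ hψ =>
      cmp_kills per (fun φ hφ => lieT_hc per ρ χ hD hX φ hφ) lam ψ hψ
    have he : IsHodgeEnd per (cmpE lam X) := cmp_of_ext (hodgeEnds per) h2 lam
    have hmem : (cmpE lam X).baseChange k ∈ lieT ρ χ := by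
      refine hC _ (Submodule.subset_span ⟨_, he, rfl⟩) (fun P hP => ?_) (fun m φ hφ => ?_)
      · exact comm_endos per ω₀ hper hR _ hk hP
      · exact kills_span (fun ψ => IsHodgeTensor per ψ) _ (hk m) φ ((hc_iff per φ).1 hφ)
    have h4 := congrArg lam (htr _ hmem)
    rw [trace_cmp, cmpE_mul, map_zero] at h4
    obtain ⟨P', hP'⟩ := he
    obtain ⟨E, hE1, hE2, hE3, hE4⟩ := hR
    obtain ⟨b, b', hb⟩ := hper
    have hskew := (kills_one2 ω₀ (cmpE lam X)).1 (hk 1 _ (one2_hodge per ω₀ ⟨E, hE1, hE2⟩))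
    exact hros W T per _ b b' hb ω₀ E hE1 (fun u v => hE2 Complex.I (by simp) u v) hE3 hE4 _ P' hP'
      hskew h4
  refine LinearMap.ext fun z => ?_
  have h5 : X = (0 : Module.End k (k ⊗[ℚ] W)) := by
    refine ((finBasis ℚ W).baseChange k).ext fun i => ?_
    apply eq_zero_of_cmp (k := ℚ)
    intro lam
    have h6 := congrArg (fun f : Module.End ℚ W => f (finBasis ℚ W i)) (h0 lam)
    rw [Basis.baseChange_apply]
    exact h6
  rw [h5]

include hper hR hωω hωρ hD hC hcomm hsemi hros in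
/-- One quartic Tate class decides the Mumford-Tate conjecture. -/
theorem exists_quartic :
    ∃ Θ : MultilinearMap k (fun _ : Fin 2 × Fin 2 => k ⊗[ℚ] W) k, IsTateTensor ρ χ 2 Θ ∧
      (∀ Z : Module.End k (k ⊗[ℚ] W), (∀ u v, ω (Z u) v + ω u (Z v) = 0) →
        (∀ P ∈ endos k per, Z * P = P * Z) → Kills Z Θ →
        ∃ C ∈ endos k per, (∀ P ∈ endos k per, C * P = P * C) ∧ Z - C ∈ lieT ρ χ) ∧
      (MTD.IsHodgeCombination per Θ → ∀ (m : ℕ)
        (φ : MultilinearMap k (fun _ : Fin m × Fin 2 => k ⊗[ℚ] W) k),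
        IsTateTensor ρ χ m φ → MTD.IsHodgeCombination per φ) := by
  have hnd₀ := riemann_nondeg per ω₀ hper hR
  have hnd := nondeg_ext ω₀ ω hωω hnd₀
  have hRH := riemann_hodge per ω₀ hR
  have hnt := lieT_trace per ρ χ ω₀ ω hper hR hωω hωρ hD hC hcomm hsemi hros
  refine ⟨KC2.casimir (lieT ρ χ) hnt ω, ⟨⊤, inferInstance, fun s _ v => ?_⟩, ?_, fun hΘ => ?_⟩
  · refine KC2.casimir_inv (lieT ρ χ) hnt ω (g := ρ s) (g' := ρ s⁻¹) ?_ ?_ (hωρ s) ?_ ?_ v
    · rw [← map_mul, inv_mul_cancel, map_one]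
    · rw [← map_mul, mul_inv_cancel, map_one]
    · intro X hX
      exact lieT_conj ρ χ s hX
    · intro X hX
      have h1 := lieT_conj ρ χ s⁻¹ hX
      rwa [inv_inv] at h1
  · intro Z hZs hZc hZk
    obtain ⟨Y, hY, hYc⟩ := KC2.mem_of_kills_casimir (lieT ρ χ) hnt ω
      (fun X hX Y hY => lieT_bracket ρ χ hX hY) hnd hZs hZk
    refine ⟨Z - Y, hcomm _ hYc, fun P hP => ?_, ?_⟩
    · have e1 := hZc P hP
      have e2 := lieT_comm per ρ χ ω₀ ω hper hR hωω hωρ hD hY hP
      refine LinearMap.ext fun z => ?_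
      have e3 := congrArg (fun f : Module.End k (k ⊗[ℚ] W) => f z) e1
      have e4 := congrArg (fun f : Module.End k (k ⊗[ℚ] W) => f z) e2
      simp only [Module.End.mul_apply] at e3 e4
      rw [Module.End.mul_apply, Module.End.mul_apply, LinearMap.sub_apply, LinearMap.sub_apply,
        map_sub, e3, e4]
    · have e1 : Z - (Z - Y) = Y := by
        refine LinearMap.ext fun z => ?_
        rw [LinearMap.sub_apply, LinearMap.sub_apply]
        abel
      rw [e1]
      exact hY
  · intro m φ hφ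
    -- the endomorphisms that kill the Hodge classes are in the Lie algebra
    have hmem : ∀ Z₀ : Module.End ℚ W, (∀ (m' : ℕ)
        (ψ : MultilinearMap ℚ (fun _ : Fin m' × Fin 2 => W) ℚ), IsHodgeTensor per ψ →
          Kills Z₀ ψ) → Z₀.baseChange k ∈ lieT ρ χ := by
      intro Z₀ hk
      have hZs : IsSkew ω (Z₀.baseChange k) :=
        skew_ext ω₀ ω hωω ((kills_one2 ω₀ Z₀).1 (hk 1 _ (one2_hodge per ω₀ hRH)))
      have hZk : Kills (Z₀.baseChange k) (KC2.casimir (lieT ρ χ) hnt ω) :=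
        kills_span (fun ψ => IsHodgeTensor per ψ) Z₀ (hk 2) _ ((hc_iff per _).1 hΘ)
      obtain ⟨Y, hY, hYc⟩ := KC2.mem_of_kills_casimir (lieT ρ χ) hnt ω
        (fun X hX Y hY => lieT_bracket ρ χ hX hY) hnd hZs hZk
      have h1 : Z₀.baseChange k - Y ∈ lieT ρ χ := by
        refine hC _ (hcomm _ hYc) (fun P hP => ?_) (fun m φ hφ => ?_)
        · have e1 := comm_endos per ω₀ hper hR Z₀ hk hP
          have e2 := lieT_comm per ρ χ ω₀ ω hper hR hωω hωρ hD hY hP
          refine LinearMap.ext fun z => ?_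
          have e3 := congrArg (fun f : Module.End k (k ⊗[ℚ] W) => f z) e1
          have e4 := congrArg (fun f : Module.End k (k ⊗[ℚ] W) => f z) e2
          simp only [Module.End.mul_apply] at e3 e4
          rw [Module.End.mul_apply, Module.End.mul_apply, LinearMap.sub_apply, LinearMap.sub_apply,
            map_sub, e3, e4]
        · have h2 := kills_span (fun ψ => IsHodgeTensor per ψ) Z₀ (hk m) φ ((hc_iff per φ).1 hφ)
          have h3 := lieT_hc per ρ χ hD hY φ hφ
          intro v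
          have h4 : ∀ j, φ (Function.update v j ((Z₀.baseChange k - Y) (v j))) =
              φ (Function.update v j (Z₀.baseChange k (v j))) -
                φ (Function.update v j (Y (v j))) := by
            intro j
            rw [LinearMap.sub_apply, MultilinearMap.map_update_sub]
          rw [Finset.sum_congr rfl (fun j _ => h4 j), Finset.sum_sub_distrib, h2 v, h3 v, sub_zero]
      have h2 : Z₀.baseChange k = (Z₀.baseChange k - Y) + Y := by abel
      rw [h2]
      exact Submodule.add_mem _ h1 hY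
    rw [hc_iff]
    refine form_mem_span (fun ψ => IsHodgeTensor per ψ) φ fun lam => ?_
    refine hodge_of_kills per hper _ fun Z₀ hk => ?_
    exact kills_fcmp lam φ Z₀ (hmem Z₀ hk m φ hφ)

end

end Pool.Agent.W516.MTM
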