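import Mathlib
import Pool.Agent.W516.MT.AllTypes
import Pool.Agent.W516.MT.Main2
import Pool.Agent.W516.FourMain

/-!
# An element without multiplicative relations of length four: all types
-/

set_option linter.unusedSectionVars false

namespace Pool.Agent.W516.FT

open Module TensorProduct Pool.Agent.H204R3.CM Pool.Agent.H204R3.SP Pool.Agent.H204R3.GP
  Pool.Agent.W516.KC Pool.Agent.W516.DR

noncomputable section

theorem almost_zero {k V Γ : Type*} [Field k] [AddCommGroup V] [Module k V] [Group Γ]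
    (ρ : Representation k Γ V) : AlmostEquivariant ρ (0 : Module.End k V) :=
  ⟨⊤, inferInstance, fun s _ v => by rw [LinearMap.zero_apply, LinearMap.zero_apply, map_zero]⟩

theorem almost_add {k V Γ : Type*} [Field k] [AddCommGroup V] [Module k V] [Group Γ]
    (ρ : Representation k Γ V) {P Q : Module.End k V} (hP : AlmostEquivariant ρ P)
    (hQ : AlmostEquivariant ρ Q) : AlmostEquivariant ρ (P + Q) := by
  obtain ⟨Δ, hΔ, hP⟩ := hP
  obtain ⟨Δ', hΔ', hQ⟩ := hQ
  refine ⟨Δ ⊓ Δ', inferInstance, fun s hs v => ?_⟩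
  rw [LinearMap.add_apply, LinearMap.add_apply, hP s hs.1, hQ s hs.2, map_add]

theorem almost_smul {k V Γ : Type*} [Field k] [AddCommGroup V] [Module k V] [Group Γ]
    (ρ : Representation k Γ V) (c : k) {P : Module.End k V} (hP : AlmostEquivariant ρ P) :
    AlmostEquivariant ρ (c • P) := by
  obtain ⟨Δ, hΔ, hP⟩ := hP
  refine ⟨Δ, hΔ, fun s hs v => ?_⟩
  rw [LinearMap.smul_apply, LinearMap.smul_apply, hP s hs, map_smul]

/-- The main theorem: the Lie algebra contains the endomorphisms that kill a set of Tate forms, if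
this holds for central endomorphisms. -/
theorem four_all {k : Type} [Field k] [CharZero k] {V : Type*} [AddCommGroup V]
    [Module k V] [FiniteDimensional k V]
    {Γ : Type*} [Group Γ] (ρ : Representation k Γ V) (χ : Γ →* k)
    (ω : V →ₗ[k] V →ₗ[k] k) (halt : ∀ v, ω v v = 0) (hnd : ∀ u, (∀ v, ω v u = 0) → u = 0)
    (hωρ : ∀ s u v, ω (ρ s u) (ρ s v) = χ s * ω u v)
    (hss : ∀ Δ : Subgroup Γ, Δ.FiniteIndex → SemiUnder (ρ '' (Δ : Set Γ)))
    (γ : Γ) {q : ℕ} (hχ : χ γ = q) {P : Polynomial ℚ} (hP : P.Separable)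
    (hγ : (ρ γ).charpoly = P.map (algebraMap ℚ k)) (h4 : OnlyTrivialRelationsOfLengthFour P q)
    (S : ∀ m, MultilinearMap k (fun _ : Fin m × Fin 2 => V) k → Prop)
    (hS : ∀ m φ, S m φ → IsTate ρ χ m φ)
    (hcen : ∀ C : Module.End k V, AlmostEquivariant ρ C →
      (∀ Q : Module.End k V, AlmostEquivariant ρ Q → C * Q = Q * C) →
      (∀ m φ, S m φ → Kills C φ) → C ∈ lieT ρ χ)
    (Z : Module.End k V) (hZs : ∀ u v, ω (Z u) v + ω u (Z v) = 0)
    (hZc : ∀ Q : Module.End k V, AlmostEquivariant ρ Q → Z * Q = Q * Z)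
    (hZk : ∀ m φ, S m φ → Kills Z φ) : Z ∈ lieT ρ χ := by
  classical
  have hq0' : (χ γ) ≠ 0 := by
    intro h
    have h1 : χ γ * χ γ⁻¹ = 1 := by rw [← map_mul, mul_inv_cancel, map_one]
    rw [h, zero_mul] at h1
    exact zero_ne_one h1
  let Ω := (P.map (algebraMap ℚ k)).SplittingField
  have _ : CharZero Ω := charZero_of_injective_algebraMap (algebraMap k Ω).injective
  have hanti : ∀ u v, ω u v = -ω v u := by
    intro u v
    have h1 := halt (u + v)
    simp only [map_add, LinearMap.add_apply, halt, zero_add, add_zero] at h1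
    exact eq_neg_of_add_eq_zero_left (by rw [← h1]; ring)
  have hnd' : ∀ u, (∀ v, ω u v = 0) → u = 0 := by
    intro u hu
    apply hnd
    intro v
    rw [hanti, hu, neg_zero]
  let b := Module.finBasis k V
  have hmap : (P.map (algebraMap ℚ k)).map (algebraMap k Ω) = P.map (algebraMap ℚ Ω) := by
    rw [Polynomial.map_map]
    congr 1
  have hTchar : (bcr ρ Ω γ).charpoly = P.map (algebraMap ℚ Ω) := by
    change ((ρ γ).baseChange Ω).charpoly = _
    rw [LinearMap.charpoly_baseChange, hγ, hmap]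
  have hsplit : (P.map (algebraMap ℚ Ω)).Splits := by
    rw [← hmap]
    exact Polynomial.SplittingField.splits _
  have hcard : Fintype.card (P.rootSet Ω) = finrank Ω (Ω ⊗[k] V) := by
    rw [Polynomial.card_rootSet_eq_natDegree hP hsplit, ← LinearMap.charpoly_natDegree (bcr ρ Ω γ),
      hTchar, Polynomial.natDegree_map]
  obtain ⟨e, he⟩ := exists_eigenbasis (bcr ρ Ω γ) (P.rootSet Ω) (fun x hx => by
    rw [hTchar, Polynomial.IsRoot.def, Polynomial.eval_map_algebraMap]
    exact (Polynomial.mem_rootSet.1 hx).2) hcard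
  have hq : bcc χ Ω γ = (q : Ω) := by
    rw [bcc_apply, hχ, map_natCast]
  have hq0 : (q : Ω) ≠ 0 := by
    rw [← hq, bcc_apply]
    exact fun h => hq0' ((algebraMap k Ω).injective (by rw [h, map_zero]))
  have hantiΩ : ∀ u v, bcb Ω ω u v = -bcb Ω ω v u := by
    have h1 : bcb Ω ω = -(bcb Ω ω).flip := by
      refine (b.baseChange Ω).ext fun i => (b.baseChange Ω).ext fun l => ?_
      rw [LinearMap.neg_apply, LinearMap.neg_apply, LinearMap.flip_apply, Basis.baseChange_apply,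
        Basis.baseChange_apply, bcb_one, bcb_one, hanti, map_neg]
    intro u v
    exact congrArg (fun F : (Ω ⊗[k] V) →ₗ[Ω] (Ω ⊗[k] V) →ₗ[Ω] Ω => F u v) h1
  -- the involution
  have hprod : ∀ x y : P.rootSet Ω, bcb Ω ω (e x) (e y) ≠ 0 → (x : Ω) * y = q := by
    intro x y h0
    have h1 := bcb_inv ρ χ (Ω := Ω) ω hωρ γ (e x) (e y)
    rw [he, he, map_smul, map_smul, LinearMap.smul_apply, smul_eq_mul, smul_eq_mul, hq,
      ← mul_assoc] at h1
    have h2 := mul_right_cancel₀ h0 h1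
    rw [← h2, mul_comm]
  have hex : ∀ x : P.rootSet Ω, ∃ y, bcb Ω ω (e x) (e y) ≠ 0 := by
    intro x
    by_contra hcon
    push Not at hcon
    apply e.ne_zero x
    apply bcb_nondeg b ω hnd hnd'
    intro v
    rw [hantiΩ, ← e.sum_repr v, map_sum, neg_eq_zero]
    refine Finset.sum_eq_zero fun y _ => ?_
    rw [map_smul, hcon, smul_zero]
  choose inv hinv0 using hex
  have hxinv : ∀ x : P.rootSet Ω, (x : Ω) * inv x = q := fun x => hprod x _ (hinv0 x)
  have hx0 : ∀ x : P.rootSet Ω, (x : Ω) ≠ 0 := by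
    intro x h
    apply hq0
    rw [← hxinv x, h, zero_mul]
  have huniq : ∀ x y : P.rootSet Ω, (x : Ω) * y = q → y = inv x := by
    intro x y h
    apply Subtype.coe_injective
    apply mul_left_cancel₀ (hx0 x)
    rw [h, hxinv]
  have hinv : ∀ x, inv (inv x) = x := fun x =>
    (huniq (inv x) x (by rw [mul_comm, hxinv])).symm
  have hne : ∀ x, inv x ≠ x := by
    intro x h
    have h1 := hantiΩ (e x) (e x)
    have h2 : bcb Ω ω (e x) (e x) = 0 := by
      have h3 : (2 : Ω) * bcb Ω ω (e x) (e x) = 0 := by linear_combination h1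
      exact (mul_eq_zero.1 h3).resolve_left two_ne_zero
    apply hinv0 x
    rw [h, h2]
  let jj : P.rootSet Ω → Ω := fun x => bcb Ω ω (e x) (e (inv x))
  have hjj : ∀ x, jj (inv x) = -jj x := by
    intro x
    simp only [jj, hinv]
    exact hantiΩ _ _
  have hj0 : ∀ x, jj x ≠ 0 := hinv0
  have hω : ∀ x y, bcb Ω ω (e x) (e y) = JJ inv jj x y := by
    intro x y
    unfold JJ
    by_cases hy : y = inv x
    · rw [if_pos hy, hy]
    · rw [if_neg hy]
      by_contra h0
      exact hy (huniq x y (hprod x y h0))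
  have hfour : Four inv (fun x : P.rootSet Ω => (x : Ω)) (q : Ω) := by
    intro M hM x y z w h
    rcases relations_transfer (Polynomial.Separable.ne_zero hP) h4 M hM (x : Ω) y z w x.2 y.2 z.2
      w.2 h with h | h | h
    · exact Or.inl ⟨huniq _ _ h.1, huniq _ _ h.2⟩
    · exact Or.inr (Or.inl ⟨huniq _ _ h.1, huniq _ _ h.2⟩)
    · exact Or.inr (Or.inr ⟨huniq _ _ h.1, huniq _ _ h.2⟩)
  have hproj : HasProj (bcr ρ Ω) := by
    intro Δ hΔ U hU
    obtain ⟨P', hP1, hP2, hP3⟩ := exists_proj_baseChange (Ω := Ω) (ρ '' (Δ : Set Γ)) (hss Δ hΔ) U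
      (by
        rintro _ ⟨s, hs, rfl⟩ u hu
        exact hU s hs u hu)
    exact ⟨P', hP1, hP2, fun s hs v => hP3 _ ⟨s, hs, rfl⟩ v⟩
  have hdist := four_dist (a := fun x : P.rootSet Ω => (x : Ω)) hinv hne hxinv hfour
  -- descent of almost equivariant endomorphisms
  have hdesc : ∀ (Q : Module.End Ω (Ω ⊗[k] V)), AlmostEquivariant (bcr ρ Ω) Q →
      ∀ lam : Ω →ₗ[k] k, AlmostEquivariant ρ (cmpE lam Q) := by
    rintro Q ⟨Δ, hΔ, hQ⟩ lam
    refine ⟨Δ, hΔ, fun s hs v => ?_⟩
    have h1 : Q * (ρ s).baseChange Ω = (ρ s).baseChange Ω * Q := LinearMap.ext fun v => hQ s hs v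
    exact congrArg (fun f : Module.End k V => f v) ((comm_iff (ρ s) Q).2 h1 lam)
  have hext : ∀ (Q : Module.End k V), AlmostEquivariant ρ Q →
      AlmostEquivariant (bcr ρ Ω) (Q.baseChange Ω) := by
    rintro Q ⟨Δ, hΔ, hQ⟩
    refine ⟨Δ, hΔ, fun s hs v => ?_⟩
    have h1 : Q * ρ s = ρ s * Q := LinearMap.ext fun v => hQ s hs v
    have h2 := congrArg (LinearMap.baseChange Ω) h1
    rw [LinearMap.baseChange_mul, LinearMap.baseChange_mul] at h2
    exact congrArg (fun f : Module.End Ω (Ω ⊗[k] V) => f v) h2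
  have hZs' : ∀ u w, bcb Ω ω (Z.baseChange Ω u) w + bcb Ω ω u (Z.baseChange Ω w) = 0 :=
    skew_ext (k := Ω) ω (bcb Ω ω) (fun u v => bcb_one ω u v) hZs
  have hZc' : ∀ Q, AlmostEquivariant (bcr ρ Ω) Q → ∀ v,
      Z.baseChange Ω (Q v) = Q (Z.baseChange Ω v) := by
    intro Q hQ v
    have h1 : Q * Z.baseChange Ω = Z.baseChange Ω * Q :=
      (comm_iff Z Q).1 fun lam => (hZc _ (hdesc Q hQ lam)).symm
    exact congrArg (fun f : Module.End Ω (Ω ⊗[k] V) => f v) h1.symm
  obtain ⟨c, hc, hY⟩ := decompose e hinv hne hjj hj0 (bcb Ω ω) hω (bcr ρ Ω) (bcc χ Ω)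
    (bcb_inv ρ χ ω hωρ) hproj he hq0 hxinv hq hfour (Z.baseChange Ω) hZs' hZc'
  have hCalm : AlmostEquivariant (bcr ρ Ω) (dg e c) :=
    dg_almost e hinv hne hjj hj0 (bcb Ω ω) hω (bcr ρ Ω) (bcc χ Ω)
      (bcb_inv ρ χ ω hωρ) he hq0 hxinv hfour c hc
  have hCcomm : ∀ Q, AlmostEquivariant (bcr ρ Ω) Q → dg e c * Q = Q * dg e c := by
    intro Q hQ
    refine e.ext fun x => e.repr.injective (Finsupp.ext fun z => ?_)
    rw [Module.End.mul_apply, Module.End.mul_apply, dg_repr, dg_basis, map_smul, map_smul,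
      Finsupp.smul_apply, smul_eq_mul]
    by_cases h0 : e.repr (Q (e x)) z = 0
    · rw [h0, mul_zero, mul_zero]
    · rw [diag_of_almost e (bcr ρ Ω) he hdist hQ h0]
  -- kills
  have hsum : ∀ (m : ℕ) (φ : MultilinearMap k (fun _ : Fin m × Fin 2 => V) k),
      IsTate ρ χ m φ → (Kills (Z.baseChange Ω) (bcm (Ω := Ω) b φ) ↔
        Kills (dg e c) (bcm (Ω := Ω) b φ)) := by
    intro m φ hφ
    have h1 := hY m _ (bcm_tate b ρ χ φ hφ)
    have h2 : ∀ v : Fin m × Fin 2 → Ω ⊗[k] V, ∑ j, bcm (Ω := Ω) b φ (Function.update v j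
        (Z.baseChange Ω (v j))) = ∑ j, bcm (Ω := Ω) b φ (Function.update v j
        (dg e c (v j))) := by
      intro v
      rw [← sub_eq_zero, ← Finset.sum_sub_distrib, ← h1 v]
      refine Finset.sum_congr rfl fun j _ => ?_
      rw [LinearMap.sub_apply, MultilinearMap.map_update_sub]
    constructor
    · intro h v
      rw [← h2, h v]
    · intro h v
      rw [h2, h v]
  have hCmem : ∀ lam : Ω →ₗ[k] k, cmpE lam (dg e c) ∈ lieT ρ χ := by
    intro lam
    refine hcen _ (hdesc _ hCalm lam) (fun Q hQ => ?_) (fun m φ hφ => ?_)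
    · exact (comm_iff Q (dg e c)).2 (hCcomm _ (hext Q hQ)) lam
    · refine (kills_bcm_iff b φ (dg e c)).1 ((hsum m φ (hS m φ hφ)).1 ?_) lam
      exact kills_ext _ φ (fun v => bcm_one b φ v) Z (hZk m φ hφ)
  intro m φ hφ
  have h1 : Kills (Z.baseChange Ω) (bcm (Ω := Ω) b φ) := (hsum m φ hφ).2
    ((kills_bcm_iff b φ (dg e c)).2 fun lam => hCmem lam m φ hφ)
  intro v
  have h2 := h1 (fun l => (1 : Ω) ⊗ₜ[k] v l)
  have h3 : ∀ j, Function.update (fun l => (1 : Ω) ⊗ₜ[k] v l) j
      (Z.baseChange Ω ((1 : Ω) ⊗ₜ[k] v j)) = fun l => (1 : Ω) ⊗ₜ[k] Function.update v j (Z (v j)) l := by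
    intro j
    funext l
    by_cases hl : l = j
    · subst hl
      rw [Function.update_self, Function.update_self, LinearMap.baseChange_tmul]
    · rw [Function.update_of_ne hl, Function.update_of_ne hl]
  simp only [h3, bcm_one] at h2
  rw [← map_sum] at h2
  exact (map_eq_zero_iff _ (algebraMap k Ω).injective).1 h2

end

end Pool.Agent.W516.FT
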