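import Mathlib
import Pool.Agent.W516.MT.AllMain

/-!
# The Mumford-Tate conjecture from one element of the Galois group: all types
-/

set_option linter.unusedSectionVars false

namespace Pool.Agent.W516.MTM

open Module TensorProduct Pool.Agent.H204R3.SP Pool.Agent.H204R3.GP Pool.Agent.W516.KC
  Pool.Agent.W516.MTD Pool.Agent.W516.DR Pool.Agent.W516.FT

noncomputable section

variable {k : Type} [Field k] [CharZero k] {W T : Type} [AddCommGroup W] [Module ℚ W]
  [FiniteDimensional ℚ W] [AddCommGroup T] [Module ℂ T] (per : W →+ T)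
  {Γ : Type} [Group Γ] (ρ : Representation k Γ (k ⊗[ℚ] W)) (χ : Γ →* k)
  (ω₀ : W →ₗ[ℚ] W →ₗ[ℚ] ℚ) (ω : k ⊗[ℚ] W →ₗ[k] k ⊗[ℚ] W →ₗ[k] k)
  (hH : IsHodgeBilinear per ω₀) (hnd₀ : ∀ u, (∀ v, ω₀ u v = 0) → u = 0)
  (hωω : ∀ u v : W, ω ((1 : k) ⊗ₜ[ℚ] u) ((1 : k) ⊗ₜ[ℚ] v) = algebraMap ℚ k (ω₀ u v))
  (hωρ : ∀ s u v, ω (ρ s u) (ρ s v) = χ s * ω u v)
  (hD : Deligne per ρ χ)

include hH hnd₀ hωω hωρ hD in
/-- The endomorphisms of the abelian variety commute with a subgroup of finite index. -/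
theorem almost_of_endos {P : Module.End k (k ⊗[ℚ] W)} (hP : P ∈ endos k per) :
    AlmostEquivariant ρ P := by
  have hnd := nondeg_ext ω₀ ω hωω hnd₀
  unfold endos at hP
  induction hP using Submodule.span_induction with
  | mem P h =>
    obtain ⟨P₀, hP₀, rfl⟩ := h
    obtain ⟨E, hE, hinv⟩ := hH
    obtain ⟨P', hP'⟩ := hP₀
    have h1 : IsHodgeTensor per (one2 (ω₀.comp P₀)) := by
      apply one2_hodge
      refine ⟨E.comp (P'.restrictScalars ℝ), fun x y => ?_, fun z hz u v => ?_⟩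
      · rw [LinearMap.comp_apply, LinearMap.comp_apply, LinearMap.restrictScalars_apply,
          hP', hE]
      · rw [LinearMap.comp_apply, LinearMap.comp_apply, LinearMap.restrictScalars_apply,
          LinearMap.restrictScalars_apply, P'.map_smul, hinv z hz]
    obtain ⟨Δ, hΔ, h2⟩ := hD 1 _ h1 (one2 (ω.comp (P₀.baseChange k))) (fun v => by
      rw [one2_apply, one2_apply, LinearMap.comp_apply, LinearMap.comp_apply,
        LinearMap.baseChange_tmul, hωω, eq_ratCast])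
    refine ⟨Δ, hΔ, fun s hs u => ?_⟩
    rw [← sub_eq_zero]
    apply hnd
    intro w
    obtain ⟨v, rfl⟩ : ∃ v, ρ s v = w := ⟨ρ s⁻¹ w, rho_inv' ρ s w⟩
    have h3 := h2 s hs (fun l => if l.2 = 0 then u else v)
    rw [one2_apply, one2_apply] at h3
    simp only [if_true, pow_one, LinearMap.comp_apply] at h3
    have h4 := hωρ s (P₀.baseChange k u) v
    rw [map_sub, LinearMap.sub_apply, h4, sub_eq_zero]
    simpa using h3
  | zero => exact almost_zero ρ
  | add a b _ _ ha hb => exact almost_add ρ ha hb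
  | smul c a _ ha => exact almost_smul ρ c ha

include hH hnd₀ in
/-- Commutation with the extensions. -/
theorem comm_endos' (Z₀ : Module.End ℚ W) (hk : ∀ (m' : ℕ)
      (ψ : MultilinearMap ℚ (fun _ : Fin m' × Fin 2 => W) ℚ), IsHodgeTensor per ψ → Kills Z₀ ψ)
    {P : Module.End k (k ⊗[ℚ] W)} (h1 : P ∈ endos k per) :
    Z₀.baseChange k * P = P * Z₀.baseChange k := by
  unfold endos at h1
  induction h1 using Submodule.span_induction with
  | mem P h =>
    obtain ⟨P₀, hP₀, rfl⟩ := h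
    have h4 := congrArg (LinearMap.baseChange k) (comm_hodgeEnd per ω₀ hnd₀ hH Z₀ hk hP₀)
    rw [LinearMap.baseChange_mul, LinearMap.baseChange_mul] at h4
    exact h4
  | zero => rw [mul_zero, zero_mul]
  | add a b _ _ ha hb => rw [mul_add, add_mul, ha, hb]
  | smul c a _ ha => rw [mul_smul_comm, smul_mul_assoc, ha]

include hH hωω hωρ hD in
theorem mt_of_four (hper : MTD.IsRationalStructure per) (halt : ∀ v, ω v v = 0)
    (hnd : ∀ u, (∀ v, ω u v = 0) → u = 0)
    (hss : FiniteIndexSemisimple ρ) (hF : Faltings per ρ) (hC : Centres per ρ χ)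
    (γ : Γ) {q : ℕ} (hχ : χ γ = q) {P : Polynomial ℚ} (hP : P.Separable)
    (hγ : (ρ γ).charpoly = P.map (algebraMap ℚ k)) (h4 : OnlyTrivialRelationsOfLengthFour P q)
    (m : ℕ) (φ : MultilinearMap k (fun _ : Fin m × Fin 2 => k ⊗[ℚ] W) k)
    (hφ : IsTateTensor ρ χ m φ) : MTD.IsHodgeCombination per φ := by
  classical
  have hanti : ∀ u v, ω u v = -ω v u := by
    intro u v
    have h1 := halt (u + v)
    simp only [map_add, LinearMap.add_apply, halt, zero_add, add_zero] at h1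
    exact eq_neg_of_add_eq_zero_left (by rw [← h1]; ring)
  have hnd' : ∀ u, (∀ v, ω v u = 0) → u = 0 := by
    intro u hu
    apply hnd
    intro v
    rw [hanti, hu, neg_zero]
  have hnd₀ : ∀ u, (∀ v, ω₀ u v = 0) → u = 0 := by
    intro u hu
    have h1 : (1 : k) ⊗ₜ[ℚ] u = 0 := by
      apply hnd
      have h2 : ω ((1 : k) ⊗ₜ[ℚ] u) = 0 := by
        refine TensorProduct.AlgebraTensorModule.ext fun c v => ?_
        have h3 : c ⊗ₜ[ℚ] v = c • ((1 : k) ⊗ₜ[ℚ] v) := by rw [smul_tmul', smul_eq_mul, mul_one]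
        rw [h3, map_smul, hωω, hu, map_zero, smul_zero]
        simp
      intro v
      rw [h2, LinearMap.zero_apply]
    let b := finBasis ℚ W
    apply b.repr.injective
    ext i
    have h2 := congrArg (fun z => (b.baseChange k).repr z i) h1
    simp only [Basis.baseChange_repr_tmul, map_zero, Finsupp.zero_apply] at h2
    rw [map_zero, Finsupp.zero_apply]
    rw [Algebra.smul_def, mul_one] at h2
    exact (map_eq_zero_iff _ (algebraMap ℚ k).injective).1 h2
  have hss' : ∀ Δ : Subgroup Γ, Δ.FiniteIndex → SemiUnder (ρ '' (Δ : Set Γ)) := by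
    intro Δ hΔ U hU
    obtain ⟨U', h1, h2⟩ := hss Δ hΔ U (fun s hs u hu => hU _ ⟨s, hs, rfl⟩ u hu)
    refine ⟨U', ?_, h2⟩
    rintro _ ⟨s, hs, rfl⟩ u hu
    exact h1 s hs u hu
  have hmem : ∀ Z₀ : Module.End ℚ W, (∀ (m' : ℕ)
      (ψ : MultilinearMap ℚ (fun _ : Fin m' × Fin 2 => W) ℚ), IsHodgeTensor per ψ →
        Kills Z₀ ψ) → Z₀.baseChange k ∈ lieT ρ χ := by
    intro Z₀ hk
    have hZs : IsSkew ω (Z₀.baseChange k) :=
      skew_ext ω₀ ω hωω ((kills_one2 ω₀ Z₀).1 (hk 1 _ (one2_hodge per ω₀ hH)))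
    refine four_all ρ χ ω halt hnd' hωρ hss' γ hχ hP hγ h4
      (fun m φ => MTD.IsHodgeCombination per φ) (fun m φ hφ => ?_) (fun C hC1 hC2 hC3 => ?_)
      (Z₀.baseChange k) hZs (fun Q hQ => ?_) (fun m φ hφ => ?_)
    · -- combinations of Hodge classes are Tate classes
      rw [hc_iff] at hφ
      induction hφ using Submodule.span_induction with
      | mem φ h =>
        obtain ⟨ψ, h1, h2⟩ := h
        exact hD m ψ h1 φ (fun v => by rw [h2 v, eq_ratCast])
      | zero =>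
        refine ⟨⊤, inferInstance, fun s _ v => ?_⟩
        change (0 : k) = χ s ^ m * 0
        rw [mul_zero]
      | add a b _ _ ha hb =>
        obtain ⟨Δ, hΔ, h1⟩ := ha
        obtain ⟨Δ', hΔ', h2⟩ := hb
        refine ⟨Δ ⊓ Δ', inferInstance, fun s hs v => ?_⟩
        change a _ + b _ = χ s ^ m * (a v + b v)
        rw [h1 s hs.1, h2 s hs.2, mul_add]
      | smul c a _ ha =>
        obtain ⟨Δ, hΔ, h1⟩ := ha
        refine ⟨Δ, hΔ, fun s hs v => ?_⟩
        change c * a _ = χ s ^ m * (c * a v)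
        rw [h1 s hs]
        ring
    · refine hC C (hF C hC1) (fun Q hQ => ?_) hC3
      exact hC2 Q (almost_of_endos per ρ χ ω₀ ω hH hnd₀ hωω hωρ hD hQ)
    · exact comm_endos' per ω₀ hH hnd₀ Z₀ hk (hF Q hQ)
    · exact kills_span (fun ψ => IsHodgeTensor per ψ) Z₀ (hk m) φ ((hc_iff per φ).1 hφ)
  rw [hc_iff]
  refine form_mem_span (fun ψ => IsHodgeTensor per ψ) φ fun lam => ?_
  refine hodge_of_kills per hper _ fun Z₀ hk => ?_
  exact kills_fcmp lam φ Z₀ (hmem Z₀ hk m φ hφ)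

end

end Pool.Agent.W516.MTM
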