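import Mathlib
import Pool.Agent.W516.MT.Stmt
import Pool.Agent.H204R3.SP.Lie

/-!
# The commutant of the Lie algebra: the use of the `ℓ`-adic logarithm
-/

set_option linter.unusedSectionVars false

namespace Pool.Agent.W516.MTP

open Module Filter Topology Pool.Agent.H204R3.SP Pool.Agent.W516.MTS

noncomputable section

variable (ℓ : ℕ) [Fact ℓ.Prime] {n : ℕ}

/-- All powers. -/
theorem near_pow (hA : S_PADA) {T : Matrix (Fin n) (Fin n) ℚ_[ℓ]} (hT : Near ℓ T) (k : ℕ) :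
    Near ℓ (T ^ (ℓ ^ k)) := by
  intro i j
  refine (hA ℓ n T hT k i j).trans ?_
  have h1 : (1 : ℝ) ≤ ℓ := by exact_mod_cast (Fact.out : ℓ.Prime).one_le
  exact zpow_le_zpow_right₀ h1 (by omega)

/-- The commutator with the powers. -/
theorem comm_pow (hA : S_PADA) (hB : S_PADB) {T : Matrix (Fin n) (Fin n) ℚ_[ℓ]} (hT : Near ℓ T)
    (P : Matrix (Fin n) (Fin n) ℚ_[ℓ]) (k : ℕ) : ∀ r : ℝ,
    (∀ i j, ‖(T ^ (ℓ ^ k) * P - P * T ^ (ℓ ^ k)) i j‖ ≤ ((ℓ : ℝ)⁻¹) ^ k * r) →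
      ∀ i j, ‖(T * P - P * T) i j‖ ≤ r := by
  induction k with
  | zero =>
    intro r h
    simpa using h
  | succ k ih =>
    intro r h
    apply ih
    apply hB ℓ n _ (near_pow ℓ hA hT k)
    intro i j
    have h1 := h i j
    rw [pow_succ, pow_mul, pow_succ] at h1
    rw [← mul_assoc, mul_comm ((ℓ : ℝ)⁻¹)]
    exact h1

/-- An element of the Lie algebra attached to a matrix congruent to one. -/
theorem exists_log (hA : S_PADA) (hB : S_PADB) (hCo : S_PADC) (hD : S_PADD)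
    {T : Matrix (Fin n) (Fin n) ℚ_[ℓ]} (hT : Near ℓ T) {c : ℚ_[ℓ]}
    (hc : ‖c - 1‖ ≤ (ℓ : ℝ) ^ (-2 : ℤ)) :
    ∃ (Y : Matrix (Fin n) (Fin n) ℚ_[ℓ]) (y : ℚ_[ℓ]),
      (∀ (κ : Type) [Fintype κ] [DecidableEq κ]
        (φ : MultilinearMap ℚ_[ℓ] (fun _ : κ => Fin n → ℚ_[ℓ]) ℚ_[ℓ]) (N m : ℕ), 0 < N →
        (∀ v : κ → Fin n → ℚ_[ℓ],
          φ (fun l => (T ^ N).mulVec (v l)) = (c ^ N) ^ m * φ v) →
        ∀ v : κ → Fin n → ℚ_[ℓ],
          ∑ j, φ (Function.update v j (Y.mulVec (v j))) = m * y * φ v) ∧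
      ∀ P : Matrix (Fin n) (Fin n) ℚ_[ℓ], Y * P = P * Y → T * P = P * T := by
  have hℓ : (0 : ℝ) < ℓ := by exact_mod_cast (Fact.out : ℓ.Prime).pos
  have hℓ1 : (1 : ℝ) < ℓ := by exact_mod_cast (Fact.out : ℓ.Prime).one_lt
  have hℓ0 : (ℓ : ℚ_[ℓ]) ≠ 0 := by exact_mod_cast (Fact.out : ℓ.Prime).ne_zero
  have hnorm : ∀ k : ℕ, ‖((ℓ : ℚ_[ℓ]) ^ k)‖ = ((ℓ : ℝ)⁻¹) ^ k := by
    intro k
    rw [norm_pow, Padic.norm_p]
  -- the matrix of size one
  have hc' : ∀ k : ℕ, ‖c ^ (ℓ ^ k) - 1‖ ≤ (ℓ : ℝ) ^ (-2 - k : ℤ) := by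
    intro k
    let C : Matrix (Fin 1) (Fin 1) ℚ_[ℓ] := Matrix.diagonal fun _ => c
    have h1 : Near ℓ C := by
      intro i j
      have hij : i = j := Subsingleton.elim _ _
      subst hij
      have h3 : (C - 1) i i = c - 1 := by
        rw [Matrix.sub_apply, Matrix.one_apply_eq]
        exact congrArg (fun x => x - 1) (Matrix.diagonal_apply_eq _ i)
      rw [h3]
      exact hc
    have h2 := hA ℓ 1 C h1 k 0 0
    have h3 : (C ^ (ℓ ^ k) - 1) 0 0 = c ^ (ℓ ^ k) - 1 := by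
      have h4 : C ^ (ℓ ^ k) = Matrix.diagonal fun _ => c ^ (ℓ ^ k) := Matrix.diagonal_pow _ _
      rw [h4, Matrix.sub_apply, Matrix.one_apply_eq, Matrix.diagonal_apply_eq]
    rw [h3] at h2
    exact h2
  let t : ℕ → ℚ_[ℓ] := fun k => (ℓ : ℚ_[ℓ]) ^ k
  have ht0 : ∀ k, t k ≠ 0 := fun k => pow_ne_zero _ hℓ0
  let Y : ℕ → Matrix (Fin n) (Fin n) ℚ_[ℓ] := fun k => (t k)⁻¹ • (T ^ (ℓ ^ k) - 1)
  let y : ℕ → ℚ_[ℓ] := fun k => (t k)⁻¹ * (c ^ (ℓ ^ k) - 1)
  have hYT : ∀ k, 1 + t k • Y k = T ^ (ℓ ^ k) := by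
    intro k
    simp only [Y]
    rw [smul_smul, mul_inv_cancel₀ (ht0 k), one_smul, add_sub_cancel]
  have hyc : ∀ k, 1 + t k * y k = c ^ (ℓ ^ k) := by
    intro k
    simp only [y]
    rw [← mul_assoc, mul_inv_cancel₀ (ht0 k), one_mul, add_sub_cancel]
  have hbound : ∀ (k : ℕ) (x : ℚ_[ℓ]), ‖x‖ ≤ (ℓ : ℝ) ^ (-2 - k : ℤ) → ‖(t k)⁻¹ * x‖ ≤ 1 := by
    intro k x hx
    rw [norm_mul, norm_inv, hnorm, inv_pow, inv_inv]
    calc (ℓ : ℝ) ^ k * ‖x‖ ≤ (ℓ : ℝ) ^ k * (ℓ : ℝ) ^ (-2 - k : ℤ) :=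
          mul_le_mul_of_nonneg_left hx (by positivity)
      _ = (ℓ : ℝ) ^ (-2 : ℤ) := by
          rw [← zpow_natCast, ← zpow_add₀ hℓ.ne']
          congr 1
          ring
      _ ≤ 1 := by
          rw [zpow_neg]
          exact inv_le_one_of_one_le₀ (one_le_zpow₀ hℓ1.le (by norm_num))
  obtain ⟨Y₀, y₀, f, hf, hY₀, hy₀⟩ := hCo ℓ n Y y (fun k i j => hbound k _ (hA ℓ n T hT k i j))
    (fun k => hbound k _ (hc' k))
  refine ⟨Y₀, y₀, ?_, ?_⟩
  · intro κ _ _ φ N m hN hinv v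
    -- the invariance under the powers
    have hpow : ∀ (j : ℕ) (v : κ → Fin n → ℚ_[ℓ]),
        φ (fun l => ((T ^ N) ^ j).mulVec (v l)) = ((c ^ N) ^ m) ^ j * φ v := by
      intro j
      induction j with
      | zero => intro v; simp
      | succ j ih =>
        intro v
        have h1 : (fun l => ((T ^ N) ^ (j + 1)).mulVec (v l)) =
            fun l => (T ^ N).mulVec (((T ^ N) ^ j).mulVec (v l)) := by
          funext l
          rw [Matrix.mulVec_mulVec, ← pow_succ']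
        rw [h1, hinv, ih, pow_succ]
        ring
    have htt : Tendsto (fun i => t (f i)) atTop (𝓝 0) := by
      have h1 : Tendsto t atTop (𝓝 0) := by
        apply tendsto_pow_atTop_nhds_zero_of_norm_lt_one
        rw [Padic.norm_p]
        exact inv_lt_one_of_one_lt₀ hℓ1
      exact h1.comp hf.tendsto_atTop
    have h1 := hD ℓ n κ φ N (N * m) (fun i => t (f i)) (fun i => ht0 _) htt
      (fun i => Y (f i)) (fun i => y (f i)) Y₀ y₀ hY₀ hy₀ (by
        intro i v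
        rw [hYT, hyc]
        have h2 := hpow (ℓ ^ (f i)) v
        rw [← pow_mul, mul_comm N, pow_mul] at h2
        rw [h2]
        congr 1
        rw [← pow_mul, ← pow_mul, ← pow_mul]
        congr 1
        ring) v
    have hN0 : (N : ℚ_[ℓ]) ≠ 0 := by exact_mod_cast hN.ne'
    apply mul_left_cancel₀ hN0
    rw [h1]
    push_cast
    ring
  · intro P hP
    -- the norm of the commutator
    have key : ∀ ε : ℝ, 0 < ε → ∀ i j, ‖(T * P - P * T) i j‖ ≤ ε := by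
      intro ε hε
      have h1 : Tendsto (fun i => Y (f i) * P - P * Y (f i)) atTop (𝓝 (Y₀ * P - P * Y₀)) :=
        (hY₀.mul_const P).sub (hY₀.const_mul P)
      rw [hP, sub_self] at h1
      have h2 : ∀ i j, ∀ᶠ a in atTop, ‖(Y (f a) * P - P * Y (f a)) i j‖ < ε := by
        intro i j
        have h3 : Tendsto (fun a => ‖(Y (f a) * P - P * Y (f a)) i j‖) atTop (𝓝 0) := by
          have h4 : Tendsto (fun a => (Y (f a) * P - P * Y (f a)) i j) atTop (𝓝 0) :=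
            ((continuous_apply_apply i j).tendsto _).comp h1
          simpa using h4.norm
        exact h3.eventually (gt_mem_nhds hε)
      have h3 : ∀ᶠ a in atTop, ∀ i j, ‖(Y (f a) * P - P * Y (f a)) i j‖ < ε := by
        rw [eventually_all]
        intro i
        rw [eventually_all]
        exact h2 i
      obtain ⟨a, ha⟩ := h3.exists
      apply comm_pow ℓ hA hB hT P (f a) ε
      intro i j
      have h4 : T ^ (ℓ ^ (f a)) * P - P * T ^ (ℓ ^ (f a)) =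
          t (f a) • (Y (f a) * P - P * Y (f a)) := by
        rw [← hYT, add_mul, mul_add, one_mul, mul_one, smul_mul_assoc, mul_smul_comm, smul_sub]
        abel
      rw [h4, Matrix.smul_apply, smul_eq_mul, norm_mul, hnorm]
      exact mul_le_mul_of_nonneg_left (ha i j).le (by positivity)
    rw [← sub_eq_zero]
    ext i j
    rw [Matrix.zero_apply, ← norm_le_zero_iff]
    exact le_of_forall_pos_le_add fun ε hε => by
      rw [zero_add]
      exact key ε hε i j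

end

end Pool.Agent.W516.MTP
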