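import Mathlib
import Pool.Agent.W516.MT.Padic

/-!
# The commutant of the Lie algebra
-/

set_option linter.unusedSectionVars false

namespace Pool.Agent.W516.MTP

open Module Filter Topology Pool.Agent.H204R3.SP Pool.Agent.W516.MTS

noncomputable section

variable (ℓ : ℕ) [Fact ℓ.Prime] {V : Type} [AddCommGroup V] [Module ℚ_[ℓ] V]
  [FiniteDimensional ℚ_[ℓ] V] {Γ : Type} [Group Γ] [TopologicalSpace Γ] [IsTopologicalGroup Γ]
  [CompactSpace Γ] (ρ : Representation ℚ_[ℓ] Γ V) (χ : Γ →* ℚ_[ℓ])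

theorem almost_of_comm (hA : S_PADA) (hB : S_PADB) (hCo : S_PADC) (hD : S_PADD) (hN : S_NBH)
    (hρ : ∀ (f : Module.Dual ℚ_[ℓ] V) (v : V), Continuous fun s => f (ρ s v)) (hχ : Continuous χ)
    (P : Module.End ℚ_[ℓ] V) (hP : ∀ X ∈ lieT ρ χ, X * P = P * X) :
    ∃ Δ : Subgroup Γ, Δ.FiniteIndex ∧ ∀ s ∈ Δ, ∀ v, P (ρ s v) = ρ s (P v) := by
  classical
  let b := Module.finBasis ℚ_[ℓ] V
  let e := LinearMap.toMatrixAlgEquiv b
  let M : Γ →* Matrix (Fin (finrank ℚ_[ℓ] V)) (Fin (finrank ℚ_[ℓ] V)) ℚ_[ℓ] :=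
    { toFun := fun s => e (ρ s)
      map_one' := by rw [map_one, map_one]
      map_mul' := fun s t => by rw [map_mul, map_mul] }
  have hM : Continuous M := by
    refine continuous_pi fun i => continuous_pi fun j => ?_
    have h1 : ∀ s, M s i j = b.coord i (ρ s (b j)) := by
      intro s
      change e (ρ s) i j = _
      rw [LinearMap.toMatrixAlgEquiv_apply, Basis.coord_apply]
    simp only [h1]
    exact hρ _ _
  obtain ⟨Δ, hΔ, hnear⟩ := hN ℓ _ Γ M χ hM hχ
  refine ⟨Δ, hΔ, fun s hs => ?_⟩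
  obtain ⟨hs1, hs2⟩ := hnear s hs
  obtain ⟨Y, y, hY1, hY2⟩ := exists_log ℓ hA hB hCo hD hs1 hs2
  -- the element of the Lie algebra
  let X : Module.End ℚ_[ℓ] V := e.symm Y - (y / 2) • 1
  have hmv : ∀ (A : Matrix (Fin (finrank ℚ_[ℓ] V)) (Fin (finrank ℚ_[ℓ] V)) ℚ_[ℓ])
      (w : Fin (finrank ℚ_[ℓ] V) → ℚ_[ℓ]),
      b.equivFun.symm (A.mulVec w) = e.symm A (b.equivFun.symm w) := by
    intro A w
    apply b.equivFun.injective
    rw [LinearEquiv.apply_symm_apply]
    have h1 := LinearMap.toMatrix_mulVec_repr b b (e.symm A) (b.equivFun.symm w)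
    have h2 : LinearMap.toMatrix b b (e.symm A) = A := e.apply_symm_apply A
    rw [h2] at h1
    have h3 : (b.repr (b.equivFun.symm w) : Fin (finrank ℚ_[ℓ] V) → ℚ_[ℓ]) = w := by
      have h4 := b.equivFun.apply_symm_apply w
      rwa [Basis.equivFun_apply] at h4
    rw [h3] at h1
    rw [h1, Basis.equivFun_apply]
  have hX : X ∈ lieT ρ χ := by
    rintro m φ ⟨Δ', hΔ', hφ⟩ v
    obtain ⟨N, hN0, -, hNΔ⟩ := Subgroup.exists_pow_mem_of_index_ne_zero hΔ'.index_ne_zero s
    let φ' : MultilinearMap ℚ_[ℓ] (fun _ : Fin m × Fin 2 => Fin (finrank ℚ_[ℓ] V) → ℚ_[ℓ]) ℚ_[ℓ] :=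
      φ.compLinearMap (fun _ => b.equivFun.symm.toLinearMap)
    have hφ' : ∀ w, φ' w = φ (fun l => b.equivFun.symm (w l)) := fun _ => rfl
    have hsN : e.symm (M s ^ N) = ρ (s ^ N) := by
      rw [← map_pow M s N]
      exact e.symm_apply_apply _
    have h1 := hY1 (Fin m × Fin 2) φ' N m hN0 (by
      intro w
      rw [hφ', hφ']
      have h2 := hφ (s ^ N) hNΔ (fun l => b.equivFun.symm (w l))
      rw [map_pow χ] at h2
      rw [← h2]
      congr 1
      funext l
      rw [hmv, hsN]) (fun l => b.equivFun (v l))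
    have h2 : ∀ j, φ' (Function.update (fun l => b.equivFun (v l)) j
        (Y.mulVec (b.equivFun (v j)))) = φ (Function.update v j (e.symm Y (v j))) := by
      intro j
      rw [hφ']
      congr 1
      funext l
      by_cases hl : l = j
      · subst hl
        rw [Function.update_self, Function.update_self, hmv, LinearEquiv.symm_apply_apply]
      · rw [Function.update_of_ne hl, Function.update_of_ne hl, LinearEquiv.symm_apply_apply]
    rw [Finset.sum_congr rfl (fun j _ => h2 j)] at h1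
    have h3 : φ' (fun l => b.equivFun (v l)) = φ v := by
      rw [hφ']
      congr 1
      funext l
      rw [LinearEquiv.symm_apply_apply]
    rw [h3] at h1
    have h4 : ∀ j, φ (Function.update v j (X (v j))) =
        φ (Function.update v j (e.symm Y (v j))) - (y / 2) * φ v := by
      intro j
      have h5 : X (v j) = e.symm Y (v j) - (y / 2) • v j := rfl
      rw [h5, MultilinearMap.map_update_sub, MultilinearMap.map_update_smul,
        Function.update_eq_self, smul_eq_mul]
    rw [Finset.sum_congr rfl (fun j _ => h4 j), Finset.sum_sub_distrib, h1, Finset.sum_const,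
      Finset.card_univ, Fintype.card_prod, Fintype.card_fin, Fintype.card_fin, nsmul_eq_mul]
    push_cast
    ring
  have h1 := hP X hX
  have h2 : Y * e P = e P * Y := by
    have h3 : e.symm Y * P = P * e.symm Y := by
      have h4 : e.symm Y = X + (y / 2) • (1 : Module.End ℚ_[ℓ] V) := by
        simp only [X]
        rw [sub_add_cancel]
      rw [h4, add_mul, mul_add, h1, smul_mul_assoc, mul_smul_comm, one_mul, mul_one]
    have h5 := congrArg e h3
    rw [map_mul, map_mul, AlgEquiv.apply_symm_apply] at h5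
    exact h5
  have h3 := hY2 (e P) h2
  have h4 : ρ s * P = P * ρ s := by
    apply e.injective
    rw [map_mul, map_mul]
    exact h3
  intro v
  exact (congrArg (fun f : Module.End ℚ_[ℓ] V => f v) h4).symm

end

end Pool.Agent.W516.MTP
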