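import Mathlib
import Pool.Agent.W516.MT.Main2
import Pool.Agent.W516.MT.Comm
import Pool.Agent.W565.MT.PADA
import Pool.Agent.W806.MT.PADB
import Pool.Agent.W462.MT.PADC
import Pool.Agent.W230.MT.PADD
import Pool.Agent.W32.MT.NBH
import Pool.Agent.W405.MT.SEMI
import Pool.Agent.W290.MT.ROS

/-!
# One quartic Tate class: the final form
-/

set_option linter.unusedSectionVars false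

namespace Pool.Agent.W516.MTF

open Module TensorProduct Pool.Agent.H204R3.SP Pool.Agent.H204R3.GP Pool.Agent.W516.KC
  Pool.Agent.W516.MTD Pool.Agent.W516.DR

noncomputable section

variable (ℓ : ℕ) [Fact ℓ.Prime] {W T : Type} [AddCommGroup W] [Module ℚ W]
  [FiniteDimensional ℚ W] [AddCommGroup T] [Module ℂ T] (per : W →+ T)
  (ω₀ : W →ₗ[ℚ] W →ₗ[ℚ] ℚ) (hper : MTD.IsRationalStructure per) (hR : IsRiemannForm per ω₀)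
  {Γ : Type} [Group Γ] [TopologicalSpace Γ] [IsTopologicalGroup Γ] [CompactSpace Γ]
  (ρ : Representation ℚ_[ℓ] Γ (ℚ_[ℓ] ⊗[ℚ] W)) (χ : Γ →* ℚ_[ℓ])
  (hcont : ∀ (f : ℚ_[ℓ] ⊗[ℚ] W →ₗ[ℚ_[ℓ]] ℚ_[ℓ]) (v : ℚ_[ℓ] ⊗[ℚ] W), Continuous fun s => f (ρ s v))
  (hχ : Continuous χ)
  (ω : ℚ_[ℓ] ⊗[ℚ] W →ₗ[ℚ_[ℓ]] ℚ_[ℓ] ⊗[ℚ] W →ₗ[ℚ_[ℓ]] ℚ_[ℓ])
  (hωω : ∀ u v : W, ω ((1 : ℚ_[ℓ]) ⊗ₜ[ℚ] u) ((1 : ℚ_[ℓ]) ⊗ₜ[ℚ] v) = ((ω₀ u v : ℚ) : ℚ_[ℓ]))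
  (hωρ : ∀ s u v, ω (ρ s u) (ρ s v) = χ s * ω u v)
  (hss : Semisimple ρ) (hF : Faltings per ρ) (hD : Deligne per ρ χ) (hC : Centres per ρ χ)

include hcont hχ hF in
theorem comm_lieT (P : Module.End ℚ_[ℓ] (ℚ_[ℓ] ⊗[ℚ] W))
    (hP : ∀ X ∈ lieT ρ χ, X * P = P * X) : P ∈ endos ℚ_[ℓ] per :=
  hF P (MTP.almost_of_comm ℓ ρ χ W565.MT.T_PADA W806.MT.T_PADB W462.MT.T_PADC W230.MT.T_PADD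
    W32.MT.T_NBH hcont hχ P hP)

include hper hR hωω hωρ hss hF hD in
theorem semi_lieT : Semi (lieT ρ χ) := by
  have hωω' : ∀ u v : W, ω ((1 : ℚ_[ℓ]) ⊗ₜ[ℚ] u) ((1 : ℚ_[ℓ]) ⊗ₜ[ℚ] v) =
      algebraMap ℚ ℚ_[ℓ] (ω₀ u v) := by
    intro u v
    rw [hωω, eq_ratCast]
  refine W405.MT.T_SEMI ℚ_[ℓ] (ℚ_[ℓ] ⊗[ℚ] W) Γ ρ (lieT ρ χ) (fun s X hX => lieT_conj ρ χ s hX) hss
    fun P hP X hX => ?_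
  refine MTM.lieT_comm per ρ χ ω₀ ω hper hR hωω' hωρ hD hX (hF P ⟨⊤, inferInstance, fun s _ v => ?_⟩)
  exact congrArg (fun f : Module.End ℚ_[ℓ] (ℚ_[ℓ] ⊗[ℚ] W) => f v) (hP s)

include hper hR hcont hχ hωω hωρ hss hF hD hC in
theorem quartic :
    ∃ Θ : MultilinearMap ℚ_[ℓ] (fun _ : Fin 2 × Fin 2 => ℚ_[ℓ] ⊗[ℚ] W) ℚ_[ℓ],
      IsTateTensor ρ χ 2 Θ ∧
      (∀ Z : Module.End ℚ_[ℓ] (ℚ_[ℓ] ⊗[ℚ] W), (∀ u v, ω (Z u) v + ω u (Z v) = 0) →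
        (∀ P ∈ endos ℚ_[ℓ] per, Z * P = P * Z) → Annihilates Z Θ →
        ∃ C ∈ endos ℚ_[ℓ] per, (∀ P ∈ endos ℚ_[ℓ] per, C * P = P * C) ∧ ∀ (m : ℕ)
          (φ : MultilinearMap ℚ_[ℓ] (fun _ : Fin m × Fin 2 => ℚ_[ℓ] ⊗[ℚ] W) ℚ_[ℓ]),
          IsTateTensor ρ χ m φ → Annihilates (Z - C) φ) ∧
      (MTD.IsHodgeCombination per Θ → ∀ (m : ℕ)
        (φ : MultilinearMap ℚ_[ℓ] (fun _ : Fin m × Fin 2 => ℚ_[ℓ] ⊗[ℚ] W) ℚ_[ℓ]),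
        IsTateTensor ρ χ m φ → MTD.IsHodgeCombination per φ) := by
  have hωω' : ∀ u v : W, ω ((1 : ℚ_[ℓ]) ⊗ₜ[ℚ] u) ((1 : ℚ_[ℓ]) ⊗ₜ[ℚ] v) =
      algebraMap ℚ ℚ_[ℓ] (ω₀ u v) := by
    intro u v
    rw [hωω, eq_ratCast]
  exact MTM.exists_quartic per ρ χ ω₀ ω hper hR hωω' hωρ hD hC
    (comm_lieT ℓ per ρ χ hcont hχ hF) (semi_lieT ℓ per ω₀ hper hR ρ χ ω hωω hωρ hss hF hD)
    W290.MT.T_ROS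

end

end Pool.Agent.W516.MTF
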